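import Mathlib

set_option autoImplicit false

namespace Pool.Agent.Helper904.Kh

open Matrix

/-- 2 by 2 matrices -/
abbrev M2 (R : Type) := Matrix (Fin 2) (Fin 2) R

/-- the unipotent matrix u -/
def uM (R : Type) [CommRing R] : M2 R := !![1, 1; 0, 1]

/-- the inverse of u -/
def vM (R : Type) [CommRing R] : M2 R := !![1, -1; 0, 1]

theorem vu (R : Type) [CommRing R] : vM R * uM R = 1 := by
  unfold vM uM
  ext i j; fin_cases i <;> fin_cases j <;> simp [Matrix.mul_apply, Fin.sum_univ_two]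

theorem uv (R : Type) [CommRing R] : uM R * vM R = 1 := by
  unfold vM uM
  ext i j; fin_cases i <;> fin_cases j <;> simp [Matrix.mul_apply, Fin.sum_univ_two]

/-- the ring endomorphism `m ↦ u σ(m) u⁻¹` of the 2 by 2 matrices -/
def tau {R : Type} [CommRing R] (σ : R →+* R) : M2 R →+* M2 R where
  toFun m := uM R * m.map σ * vM R
  map_one' := by
    have : (1 : M2 R).map σ = 1 := Matrix.map_one σ (map_zero σ) (map_one σ)
    rw [this, mul_one, uv]
  map_mul' m n := by
    have : (m * n).map σ = m.map σ * n.map σ := Matrix.map_mul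
    rw [this]
    calc uM R * (m.map σ * n.map σ) * vM R
        = uM R * m.map σ * 1 * n.map σ * vM R := by rw [mul_one]; simp only [mul_assoc]
      _ = uM R * m.map σ * (vM R * uM R) * n.map σ * vM R := by rw [vu]
      _ = _ := by simp only [mul_assoc]
  map_zero' := by
    have : (0 : M2 R).map σ = 0 := Matrix.map_zero σ (map_zero σ)
    rw [this, mul_zero, zero_mul]
  map_add' m n := by
    have : (m + n).map σ = m.map σ + n.map σ := Matrix.map_add σ (map_add σ) m n
    rw [this, mul_add, add_mul]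

theorem tau_apply {R : Type} [CommRing R] (σ : R →+* R) (m : M2 R) :
    tau σ m = uM R * m.map σ * vM R := rfl

theorem tau_00 {R : Type} [CommRing R] (σ : R →+* R) (m : M2 R) :
    tau σ m 0 0 = σ (m 0 0) + σ (m 1 0) := by
  rw [tau_apply]; simp only [uM, vM, Matrix.mul_apply, Fin.sum_univ_two, Matrix.map_apply, Matrix.of_apply, Matrix.cons_val', Matrix.cons_val_zero, Matrix.cons_val_one, Matrix.cons_val_fin_one]; ring

theorem tau_01 {R : Type} [CommRing R] (σ : R →+* R) (m : M2 R) :
    tau σ m 0 1 = σ (m 0 1) + σ (m 1 1) - σ (m 0 0) - σ (m 1 0) := by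
  rw [tau_apply]; simp only [uM, vM, Matrix.mul_apply, Fin.sum_univ_two, Matrix.map_apply, Matrix.of_apply, Matrix.cons_val', Matrix.cons_val_zero, Matrix.cons_val_one, Matrix.cons_val_fin_one]; ring

theorem tau_10 {R : Type} [CommRing R] (σ : R →+* R) (m : M2 R) :
    tau σ m 1 0 = σ (m 1 0) := by
  rw [tau_apply]; simp only [uM, vM, Matrix.mul_apply, Fin.sum_univ_two, Matrix.map_apply, Matrix.of_apply, Matrix.cons_val', Matrix.cons_val_zero, Matrix.cons_val_one, Matrix.cons_val_fin_one]; ring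

theorem tau_11 {R : Type} [CommRing R] (σ : R →+* R) (m : M2 R) :
    tau σ m 1 1 = σ (m 1 1) - σ (m 1 0) := by
  rw [tau_apply]; simp only [uM, vM, Matrix.mul_apply, Fin.sum_univ_two, Matrix.map_apply, Matrix.of_apply, Matrix.cons_val', Matrix.cons_val_zero, Matrix.cons_val_one, Matrix.cons_val_fin_one]; ring

/-- what we want: a finite 5-group of derived length more than `k` with an endomorphism of
order dividing 5 whose fixed points are central -/
def Good (k : ℕ) : Prop :=
  ∃ (G : Type) (_ : Group G) (_ : Finite G), IsPGroup 5 G ∧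
    ∃ f : G →* G, (∀ g, f (f (f (f (f g)))) = g) ∧
      (∀ g, f g = g → g ∈ Subgroup.center G) ∧ derivedSeries G k ≠ ⊥

/-- the ring with three derivations -/
structure RD (R : Type) [CommRing R] where
  σ : R →+* R
  da : R →+ R
  db : R →+ R
  dc : R →+ R
  da_mul : ∀ x y, da (x * y) = da x * y + x * da y
  db_mul : ∀ x y, db (x * y) = db x * y + x * db y
  dc_mul : ∀ x y, dc (x * y) = dc x * y + x * dc y
  a : R
  b : R
  c : R
  σa : σ a = a
  σb : σ b = b - a
  σc : σ c = c + 2 * b - a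
  da_a : da a = 1
  da_b : da b = 0
  da_c : da c = 0
  db_a : db a = 0
  db_b : db b = 1
  db_c : db c = 0
  dc_a : dc a = 0
  dc_b : dc b = 0
  dc_c : dc c = 1
  da_σ : ∀ r, da (σ r) = σ (da r) - σ (db r) - σ (dc r)
  db_σ : ∀ r, db (σ r) = σ (db r) + 2 * σ (dc r)
  dc_σ : ∀ r, dc (σ r) = σ (dc r)
  five : (5 : R) = 0

/-- the image of `τ - 1` -/
def JJ {R : Type} [CommRing R] (σ : R →+* R) : AddSubgroup (M2 R) where
  carrier := {m | ∃ n, m = tau σ n - n}
  zero_mem' := ⟨0, by simp⟩
  add_mem' := by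
    rintro _ _ ⟨m, rfl⟩ ⟨n, rfl⟩
    exact ⟨m + n, by rw [map_add]; abel⟩
  neg_mem' := by
    rintro _ ⟨m, rfl⟩
    exact ⟨-m, by rw [map_neg]; abel⟩

/-- the image of `σ - 1` -/
def JS {R : Type} [CommRing R] (σ : R →+* R) : AddSubgroup R where
  carrier := {m | ∃ n, m = σ n - n}
  zero_mem' := ⟨0, by simp⟩
  add_mem' := by
    rintro _ _ ⟨m, rfl⟩ ⟨n, rfl⟩
    exact ⟨m + n, by rw [map_add]; abel⟩
  neg_mem' := by
    rintro _ ⟨m, rfl⟩
    exact ⟨-m, by rw [map_neg]; abel⟩

/-- the fixed ring of `τ` -/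
def Fix {R : Type} [CommRing R] (σ : R →+* R) : Subring (M2 R) :=
  RingHom.eqLocus (tau σ) (RingHom.id _)

theorem mem_Fix {R : Type} [CommRing R] (σ : R →+* R) (m : M2 R) :
    m ∈ Fix σ ↔ tau σ m = m := Iff.rfl

/-- the bilinear form with values in matrices (3 is one half) -/
def form {R : Type} [CommRing R] (d : RD R) (m k : M2 R) : M2 R :=
  !![3 * (m.map d.db * k).trace, (m.map d.da * k).trace;
     (m.map d.dc * k).trace, -(3 * (m.map d.db * k).trace)]

/-- the matrix D -/
def DM {R : Type} [CommRing R] (d : RD R) : M2 R := !![d.b, d.c; d.a, -d.b]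

end Pool.Agent.Helper904.Kh
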