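import Mathlib
import Pool.Agent.Helper904.Kh.Defs

set_option autoImplicit false

namespace Pool.Agent.Helper904.Kh

open Matrix

/-- the tensor Ω: half of H, E21, E12, minus half of H -/
def Om : Fin 2 → Fin 2 → M2 (ZMod 5) :=
  ![![!![3, 0; 0, -3], !![0, 0; 1, 0]], ![!![0, 1; 0, 0], !![-3, 0; 0, 3]]]

/-- data on the coefficient algebra -/
structure TD (A : Type) [CommRing A] [Algebra (ZMod 5) A] where
  σ : A →ₐ[ZMod 5] A
  S : Type
  finS : Finite S
  π : S → (A →ₐ[ZMod 5] A)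
  πt : A →ₐ[ZMod 5] A
  w : M2 A
  ρ : A →ₗ[ZMod 5] M2 (ZMod 5)
  comm : ∀ s x, π s (σ x) = σ (π s x)
  sq : ∀ s x y, (x - π s x) * (y - π s y) = 0
  clos : πt ∈ Submonoid.closure (Set.range π)
  τw : tau (σ : A →+* A) w = w
  ww : ∀ i j k l, w i j * w k l = 0
  πw : ∀ i j, πt (w i j) = 0
  ρσ : ∀ x, ρ (σ x) = uM (ZMod 5) * ρ x * vM (ZMod 5)
  ρw : ∀ i j, ρ (w i j) = Om i j

/-- the unitary type group of the data -/
def UG {A : Type} [CommRing A] [Algebra (ZMod 5) A] (T : TD A) : Subgroup (M2 A)ˣ where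
  carrier := {g | tau (T.σ : A →+* A) (g : M2 A) = g ∧ (T.πt : A →+* A).mapMatrix (g : M2 A) = 1}
  one_mem' := by
    constructor
    · rw [Units.val_one, map_one]
    · rw [Units.val_one, map_one]
  mul_mem' := by
    rintro g h ⟨h1, h2⟩ ⟨h3, h4⟩
    constructor
    · rw [Units.val_mul, map_mul, h1, h3]
    · rw [Units.val_mul, map_mul, h2, h4, mul_one]
  inv_mem' := by
    rintro g ⟨h1, h2⟩
    constructor
    · have h : (g : M2 A) * tau (T.σ : A →+* A) ((g⁻¹ : (M2 A)ˣ) : M2 A) = 1 := by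
        nth_rewrite 1 [← h1]
        rw [← map_mul, Units.mul_inv, map_one]
      calc tau (T.σ : A →+* A) ((g⁻¹ : (M2 A)ˣ) : M2 A)
          = ((g⁻¹ : (M2 A)ˣ) : M2 A) * ((g : M2 A) * tau (T.σ : A →+* A) ((g⁻¹ : (M2 A)ˣ) : M2 A)) := by
            rw [← mul_assoc, Units.inv_mul, one_mul]
        _ = _ := by rw [h, mul_one]
    · have h : (T.πt : A →+* A).mapMatrix ((g : M2 A) * ((g⁻¹ : (M2 A)ˣ) : M2 A)) = 1 := by
        rw [Units.mul_inv, map_one]
      rw [map_mul, h2, one_mul] at h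
      exact h

/-- the endomorphism of the polynomial ring -/
noncomputable def sig0 {A : Type} [CommRing A] (σ : A →+* A) :
    MvPolynomial (Fin 3) A →+* MvPolynomial (Fin 3) A :=
  MvPolynomial.eval₂Hom (MvPolynomial.C.comp σ)
    ![MvPolynomial.X 0, MvPolynomial.X 1 - MvPolynomial.X 0,
      MvPolynomial.X 2 + 2 * MvPolynomial.X 1 - MvPolynomial.X 0]

/-- the ideal of fifth powers -/
noncomputable def I5 (A : Type) [CommRing A] : Ideal (MvPolynomial (Fin 3) A) :=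
  Ideal.span (Set.range fun i : Fin 3 => (MvPolynomial.X i : MvPolynomial (Fin 3) A) ^ 5)

end Pool.Agent.Helper904.Kh
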