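import Mathlib
import Pool.Agent.Helper904.Kh.Defs

set_option autoImplicit false

namespace Pool.Agent.Helper904.Kh

open Matrix


/-- the extension -/
@[ext] structure EmBg (Γ V V' : Type) (c : Γ → Γ → V) where
  /-- first coordinate -/
  y : Γ
  /-- second coordinate -/
  v : V
  /-- third coordinate -/
  w : V'

/-- the group structure of the extension -/
@[reducible] def emGroup {Γ V V' : Type} [Group Γ] [AddCommGroup V] [AddCommGroup V']
    (c : Γ → Γ → V) (hc : ∀ g h k, c g (h * k) + c h k = c g h + c (g * h) k)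
    (hc1 : ∀ g, c 1 g = 0) : Group (EmBg Γ V V' c) :=
  letI : Mul (EmBg Γ V V' c) := ⟨fun e f => ⟨e.y * f.y, e.v + f.v + c e.y f.y, e.w + f.w⟩⟩
  letI : Inv (EmBg Γ V V' c) := ⟨fun e => ⟨e.y⁻¹, -e.v - c e.y⁻¹ e.y, -e.w⟩⟩
  letI : One (EmBg Γ V V' c) := ⟨⟨1, 0, 0⟩⟩
  Group.ofLeftAxioms
    (by
      intro a b d
      apply EmBg.ext
      · exact mul_assoc a.y b.y d.y
      · change (a.v + b.v + c a.y b.y) + d.v + c (a.y * b.y) d.y =
          a.v + (b.v + d.v + c b.y d.y) + c a.y (b.y * d.y)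
        have := hc a.y b.y d.y
        calc (a.v + b.v + c a.y b.y) + d.v + c (a.y * b.y) d.y =
            a.v + b.v + d.v + (c a.y b.y + c (a.y * b.y) d.y) := by abel
          _ = a.v + b.v + d.v + (c a.y (b.y * d.y) + c b.y d.y) := by rw [this]
          _ = _ := by abel
      · exact add_assoc a.w b.w d.w)
    (by
      intro a
      apply EmBg.ext
      · exact one_mul a.y
      · change 0 + a.v + c 1 a.y = a.v
        rw [hc1]; abel
      · exact zero_add a.w)
    (by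
      intro a
      apply EmBg.ext
      · exact inv_mul_cancel a.y
      · change (-a.v - c a.y⁻¹ a.y) + a.v + c a.y⁻¹ a.y = 0
        abel
      · exact neg_add_cancel a.w)

/-- A1: the group extension.  See the hint for the construction. -/
theorem extMain {Γ V V' : Type} [Group Γ] [Finite Γ] [AddCommGroup V] [Finite V]
    [AddCommGroup V'] [Finite V'] (h5V : ∀ v : V, 5 • v = 0) (h5V' : ∀ v : V', 5 • v = 0)
    (c : Γ → Γ → V) (hc : ∀ g h k, c g (h * k) + c h k = c g h + c (g * h) k)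
    (hc1 : ∀ g, c 1 g = 0) (hc1' : ∀ g, c g 1 = 0)
    (φ₀ : Γ) (hφ₀ : φ₀ ^ 5 = 1) (hcφ : ∀ g, c g φ₀ = 0)
    (χ : Γ → V') (hχ : ∀ g h, χ (g * h) = χ g + χ h)
    (N : Subgroup Γ) (hNn : N.Normal) (hN : IsPGroup 5 N)
    (hdet : ∀ y ∈ N, c φ₀ y = 0 → χ y = 0 → y = 1)
    (k : ℕ) (hk : derivedSeries N k ≠ ⊥) : Good k := by
  let hG : Group (EmBg Γ V V' c) := emGroup c hc hc1
  have mul_def : ∀ e f : EmBg Γ V V' c, e * f = ⟨e.y * f.y, e.v + f.v + c e.y f.y, e.w + f.w⟩ :=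
    fun _ _ => rfl
  have one_def : (1 : EmBg Γ V V' c) = ⟨1, 0, 0⟩ := rfl
  have hfin : Finite (EmBg Γ V V' c) := by
    apply Finite.of_injective (fun e : EmBg Γ V V' c => (e.y, e.v, e.w))
    intro a b hab
    simp only [Prod.mk.injEq] at hab
    exact EmBg.ext hab.1 hab.2.1 hab.2.2
  have hcen : ∀ (v : V) (w : V') (e : EmBg Γ V V' c), (⟨1, v, w⟩ : EmBg Γ V V' c) * e =
      e * ⟨1, v, w⟩ := by
    intro v w e
    rw [mul_def, mul_def]
    apply EmBg.ext
    · change 1 * e.y = e.y * 1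
      rw [one_mul, mul_one]
    · change v + e.v + c 1 e.y = e.v + v + c e.y 1
      rw [hc1, hc1']; abel
    · change w + e.w = e.w + w
      abel
  have hχ1 : χ 1 = 0 := by
    have := hχ 1 1
    rw [mul_one] at this
    exact left_eq_add.1 this
  let pr : EmBg Γ V V' c →* Γ :=
    { toFun := fun e => e.y, map_one' := rfl, map_mul' := fun _ _ => rfl }
  let Z : V' → EmBg Γ V V' c := fun x => ⟨1, 0, x⟩
  have hZadd : ∀ a b, Z (a + b) = Z a * Z b := by
    intro a b
    rw [mul_def]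
    apply EmBg.ext
    · change (1:Γ) = 1 * 1
      rw [one_mul]
    · change (0:V) = 0 + 0 + c 1 1
      rw [hc1]; abel
    · rfl
  have hZc : ∀ a (e : EmBg Γ V V' c), Z a * e = e * Z a := fun a e => hcen 0 a e
  let Φ : EmBg Γ V V' c := ⟨φ₀, 0, 0⟩
  have hΦn : ∀ n : ℕ, Φ ^ n = ⟨φ₀ ^ n, 0, 0⟩ := by
    intro n
    induction n with
    | zero => rw [pow_zero, pow_zero]; rfl
    | succ n ih =>
      rw [pow_succ, ih, mul_def]
      apply EmBg.ext
      · exact (pow_succ φ₀ n).symm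
      · change (0:V) + 0 + c (φ₀ ^ n) φ₀ = 0
        rw [hcφ]; abel
      · change (0:V') + 0 = 0
        abel
  have hΦ5 : Φ ^ 5 = 1 := by
    rw [hΦn, hφ₀]; rfl
  let F : EmBg Γ V V' c →* EmBg Γ V V' c :=
    { toFun := fun e => Φ * e * Φ⁻¹ * Z (χ e.y)
      map_one' := by
        have h1 : Z (χ (1 : EmBg Γ V V' c).y) = 1 := by
          change Z (χ 1) = 1
          rw [hχ1]; rfl
        rw [h1, mul_one, mul_one, mul_inv_cancel]
      map_mul' := by
        intro a b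
        have h1 : Z (χ (a * b).y) = Z (χ a.y) * Z (χ b.y) := by
          change Z (χ (a.y * b.y)) = _
          rw [hχ, hZadd]
        rw [h1]
        calc Φ * (a * b) * Φ⁻¹ * (Z (χ a.y) * Z (χ b.y)) =
            Φ * a * Φ⁻¹ * ((Φ * b * Φ⁻¹) * Z (χ a.y)) * Z (χ b.y) := by group
          _ = Φ * a * Φ⁻¹ * (Z (χ a.y) * (Φ * b * Φ⁻¹)) * Z (χ b.y) := by
              rw [hZc (χ a.y) (Φ * b * Φ⁻¹)]
          _ = _ := by simp only [mul_assoc] }
  have hFdef : ∀ e, F e = Φ * e * Φ⁻¹ * Z (χ e.y) := fun _ => rfl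
  have hχc : ∀ y, χ (φ₀ * y * φ₀⁻¹) = χ y := by
    intro y
    rw [hχ, hχ]
    have h1 : χ φ₀ + χ φ₀⁻¹ = 0 := by
      rw [← hχ, mul_inv_cancel, hχ1]
    calc χ φ₀ + χ y + χ φ₀⁻¹ = χ y + (χ φ₀ + χ φ₀⁻¹) := by abel
      _ = χ y := by rw [h1, add_zero]
  have hFy : ∀ e, (F e).y = φ₀ * e.y * φ₀⁻¹ := by
    intro e
    change φ₀ * e.y * φ₀⁻¹ * 1 = _
    rw [mul_one]
  have hFn : ∀ (n : ℕ) (e : EmBg Γ V V' c),
      F^[n] e = Φ ^ n * e * (Φ ^ n)⁻¹ * Z (n • χ e.y) ∧ χ (F^[n] e).y = χ e.y := by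
    intro n e
    induction n with
    | zero =>
      constructor
      · have h1 : Z (0 • χ e.y) = 1 := by rw [zero_smul]; rfl
        rw [h1]
        simp
      · rfl
    | succ n ih =>
      rw [Function.iterate_succ_apply']
      constructor
      · rw [hFdef, ih.2]
        nth_rewrite 1 [ih.1]
        have h1 : Z ((n + 1) • χ e.y) = Z (n • χ e.y) * Z (χ e.y) := by
          rw [succ_nsmul, hZadd]
        rw [h1]
        calc Φ * (Φ ^ n * e * (Φ ^ n)⁻¹ * Z (n • χ e.y)) * Φ⁻¹ * Z (χ e.y) =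
            Φ * (Φ ^ n * e * (Φ ^ n)⁻¹) * (Z (n • χ e.y) * Φ⁻¹) * Z (χ e.y) := by
              simp only [mul_assoc]
          _ = Φ * (Φ ^ n * e * (Φ ^ n)⁻¹) * (Φ⁻¹ * Z (n • χ e.y)) * Z (χ e.y) := by
              rw [hZc]
          _ = _ := by
              rw [pow_succ' Φ n, _root_.mul_inv_rev]
              simp only [mul_assoc]
      · rw [hFy, hχc, ih.2]
  have hF5 : ∀ e, F (F (F (F (F e)))) = e := by
    intro e
    have h1 := (hFn 5 e).1
    have h2 : F^[5] e = F (F (F (F (F e)))) := rfl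
    rw [h2] at h1
    rw [h1, hΦ5]
    have h3 : Z (5 • χ e.y) = 1 := by rw [h5V']; rfl
    rw [h3]
    simp
  let G : Subgroup (EmBg Γ V V' c) := N.comap pr
  have hmemG : ∀ e : EmBg Γ V V' c, e ∈ G ↔ e.y ∈ N := fun _ => Iff.rfl
  let f : G →* G := (F.comp G.subtype).codRestrict G (by
    intro g
    rw [hmemG]
    change (F g.1).y ∈ N
    rw [hFy]
    exact hNn.conj_mem _ g.2 _)
  have hfv : ∀ g : G, (f g).1 = F g.1 := fun _ => rfl
  refine ⟨G, inferInstance, inferInstance, ?_, f, ?_, ?_, ?_⟩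
  · intro g
    obtain ⟨m, hm⟩ := hN ⟨g.1.y, g.2⟩
    refine ⟨m + 1, ?_⟩
    have h1 : (g.1 ^ (5 ^ m)).y = 1 := by
      change pr (g.1 ^ (5 ^ m)) = 1
      rw [map_pow]
      exact congrArg Subtype.val hm
    have h2 : ∀ (n : ℕ) (v : V) (w : V'), (⟨1, v, w⟩ : EmBg Γ V V' c) ^ n = ⟨1, n • v, n • w⟩ := by
      intro n v w
      induction n with
      | zero => rw [pow_zero, zero_smul, zero_smul]; rfl
      | succ n ih =>
        rw [pow_succ, ih, mul_def]
        apply EmBg.ext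
        · change (1:Γ) * 1 = 1
          rw [one_mul]
        · change n • v + v + c 1 1 = (n + 1) • v
          rw [hc1, add_zero, succ_nsmul]
        · change n • w + w = (n + 1) • w
          rw [succ_nsmul]
    apply Subtype.ext
    change g.1 ^ (5 ^ (m + 1)) = 1
    rw [pow_succ, pow_mul]
    have h3 : g.1 ^ (5 ^ m) = ⟨1, (g.1 ^ (5 ^ m)).v, (g.1 ^ (5 ^ m)).w⟩ :=
      EmBg.ext h1 rfl rfl
    rw [h3, h2, h5V, h5V']
    rfl
  · intro g
    apply Subtype.ext
    rw [hfv, hfv, hfv, hfv, hfv]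
    exact hF5 g.1
  · intro g hg
    have h1 : F g.1 = g.1 := congrArg Subtype.val hg
    have h2 : χ g.1.y = 0 := by
      have h3 := congrArg EmBg.w h1
      change (0 : V') + g.1.w + -0 + χ g.1.y = g.1.w at h3
      rw [zero_add, neg_zero, add_zero] at h3
      exact left_eq_add.1 h3.symm
    have h5 : Φ * g.1 = g.1 * Φ := by
      rw [hFdef, h2] at h1
      have h6 : Z 0 = 1 := rfl
      rw [h6, mul_one] at h1
      exact mul_inv_eq_iff_eq_mul.1 h1
    have h7 : c φ₀ g.1.y = 0 := by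
      have h8 := congrArg EmBg.v h5
      change (0 : V) + g.1.v + c φ₀ g.1.y = g.1.v + 0 + c g.1.y φ₀ at h8
      rw [hcφ, zero_add, add_zero, add_zero] at h8
      exact left_eq_add.1 h8.symm
    have h9 : g.1.y = 1 := hdet g.1.y g.2 h7 h2
    rw [Subgroup.mem_center_iff]
    intro x
    apply Subtype.ext
    change x.1 * g.1 = g.1 * x.1
    have h10 : g.1 = ⟨1, g.1.v, g.1.w⟩ := EmBg.ext h9 rfl rfl
    rw [h10]
    exact (hcen _ _ _).symm
  · intro hbot
    apply hk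
    let π : G →* N := (pr.comp G.subtype).codRestrict N (fun g => g.2)
    have hπ : Function.Surjective π := by
      intro n
      exact ⟨⟨⟨n.1, 0, 0⟩, n.2⟩, rfl⟩
    rw [← map_derivedSeries_eq hπ, hbot, Subgroup.map_bot]

end Pool.Agent.Helper904.Kh
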