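import Mathlib
import Pool.Agent.Helper904.Kh.Defs
import Pool.Agent.Helper904.Kh.P_extMain

set_option autoImplicit false

namespace Pool.Agent.Helper904.Kh

open Matrix


/-- the derivation `x - π x` divided by `h` -/
def absMain_lam {Q : Type} [Ring Q] (π : Q →+* Q) (h : Qˣ) : Q := ((h : Q) - π h) * (↑(h⁻¹) : Q)

theorem absMain_theta {Q : Type} [Ring Q] (π : Q →+* Q)
    (hπ : ∀ x y, (x - π x) * (y - π y) = 0) (x y : Q) :
    x * y - π (x * y) = (x - π x) * y + x * (y - π y) := by
  have h := hπ x y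
  have e : x * y - π (x * y) = (x - π x) * y + x * (y - π y) - (x - π x) * (y - π y) := by
    rw [map_mul]
    noncomm_ring
  rw [e, h, sub_zero]

theorem absMain_lam_mul {Q : Type} [Ring Q] (π : Q →+* Q)
    (hπ : ∀ x y, (x - π x) * (y - π y) = 0) (g h : Qˣ) :
    absMain_lam π (g * h) = absMain_lam π g + g * absMain_lam π h * (↑(g⁻¹) : Q) := by
  unfold absMain_lam
  rw [Units.val_mul, absMain_theta π hπ, _root_.mul_inv_rev, Units.val_mul, add_mul]
  congr 1
  · rw [mul_assoc, ← mul_assoc (h : Q), Units.mul_inv, one_mul]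
  · simp only [mul_assoc]

theorem absMain_lam_one {Q : Type} [Ring Q] (π : Q →+* Q) : absMain_lam π (1 : Qˣ) = 0 := by
  unfold absMain_lam
  simp

theorem absMain_pgroup {Q : Type} [Ring Q] [Nontrivial Q] (h5Q : (5 : Q) = 0)
    (πt : Q →+* Q) (hnil : ∀ x, IsNilpotent (x - πt x)) :
    IsPGroup 5 (Units.map (πt : Q →* Q)).ker := by
  rintro ⟨y, hy⟩
  have hy1 : πt (y : Q) = 1 := by
    have h1 : Units.map (πt : Q →* Q) y = 1 := hy
    have h2 := congrArg (fun u : Qˣ => (u : Q)) h1
    simpa using h2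
  obtain ⟨r, hr⟩ := hnil (y : Q)
  rw [hy1] at hr
  have : Fact (Nat.Prime 5) := ⟨by norm_num⟩
  have hchar : CharP Q 5 := (CharP.charP_iff_prime_eq_zero (by norm_num)).2 (by exact_mod_cast h5Q)
  refine ⟨r, ?_⟩
  apply Subtype.ext
  apply Units.ext
  show (y : Q) ^ 5 ^ r = 1
  have e : (y : Q) = 1 + ((y : Q) - 1) := by abel
  rw [e, add_pow_char_pow_of_commute _ _ (Commute.one_left _), one_pow]
  have hle : r ≤ 5 ^ r := (Nat.lt_pow_self (by norm_num)).le
  rw [pow_eq_zero_of_le hle hr, add_zero]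

/-- A2: from the ring data to the group extension -/
theorem absMain {Q W W' S L : Type} [Ring Q] [Finite Q] [AddCommGroup W] [Finite W]
    [AddCommGroup W'] [Finite W'] [Finite S] [Group L]
    (h5Q : (5 : Q) = 0) (h5W : ∀ w : W, 5 • w = 0) (h5W' : ∀ w : W', 5 • w = 0)
    (β : Q → Q → W)
    (β_add_left : ∀ m m' k, β (m + m') k = β m k + β m' k)
    (β_add_right : ∀ m k k', β m (k + k') = β m k + β m k')
    (β_mul : ∀ m n k, β (m * n) k = β m (n * k) + β n (k * m))
    (T : Q → W') (T_add : ∀ a b, T (a + b) = T a + T b) (T_comm : ∀ a b, T (a * b) = T (b * a))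
    (φ₀ : Qˣ) (hφ₀ : φ₀ ^ 5 = 1)
    (det : ∀ k : Q, β φ₀ k = 0 → T (k * φ₀) = 0 → k = 0)
    (π : S → (Q →+* Q)) (hπ : ∀ s x y, (x - π s x) * (y - π s y) = 0)
    (hπφ : ∀ s, π s φ₀ = φ₀)
    (πt : Q →+* Q) (hπt : ∀ y, (∀ s, π s y = y) → πt y = y)
    (hnil : ∀ x, IsNilpotent (x - πt x))
    (j : L →* Qˣ) (hj : ∀ l, πt (j l) = 1)
    (k : ℕ) (l : L) (hl : l ∈ derivedSeries L k) (hjl : j l ≠ 1) : Good k := by
  have hQ : Nontrivial Q := by
    by_contra h
    rw [not_nontrivial_iff_subsingleton] at h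
    exact hjl (Units.ext (Subsingleton.elim _ _))
  have β_zero : ∀ m, β m 0 = 0 := by
    intro m
    have := β_add_right m 0 0
    rw [add_zero] at this
    simpa using this
  have β_one : ∀ k, β 1 k = 0 := by
    intro k
    have := β_mul 1 1 k
    rw [one_mul, one_mul, mul_one] at this
    simpa using this
  have T_zero : T 0 = 0 := by
    have := T_add 0 0
    rw [add_zero] at this
    simpa using this
  refine extMain (Γ := Qˣ) (V := S → W) (V' := S → W')
    (fun v => funext fun s => h5W (v s)) (fun v => funext fun s => h5W' (v s))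
    (fun g h => fun s => β g (absMain_lam (π s) h * (↑(g⁻¹) : Q))) ?_ ?_ ?_ φ₀ hφ₀ ?_
    (fun g => fun s => T (absMain_lam (π s) g)) ?_
    (Units.map (πt : Q →* Q)).ker (MonoidHom.normal_ker _) (absMain_pgroup h5Q πt hnil) ?_ k ?_
  · intro g h k
    funext s
    show β g (absMain_lam (π s) (h * k) * (↑(g⁻¹) : Q)) +
      β h (absMain_lam (π s) k * (↑(h⁻¹) : Q)) =
      β g (absMain_lam (π s) h * (↑(g⁻¹) : Q)) +
      β (↑(g * h) : Q) (absMain_lam (π s) k * (↑((g * h)⁻¹) : Q))
    rw [absMain_lam_mul (π s) (hπ s), add_mul, β_add_right, _root_.mul_inv_rev, Units.val_mul,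
      Units.val_mul, β_mul]
    have e1 : absMain_lam (π s) k * ((↑(h⁻¹) : Q) * (↑(g⁻¹) : Q)) * (g : Q) =
        absMain_lam (π s) k * (↑(h⁻¹) : Q) := by
      rw [mul_assoc, mul_assoc, Units.inv_mul, mul_one]
    have e2 : (h : Q) * absMain_lam (π s) k * (↑(h⁻¹) : Q) * (↑(g⁻¹) : Q) =
        (h : Q) * (absMain_lam (π s) k * ((↑(h⁻¹) : Q) * (↑(g⁻¹) : Q))) := by
      simp only [mul_assoc]
    rw [e1, e2]
    abel
  · intro g
    funext s
    show β ((1 : Qˣ) : Q) _ = 0
    rw [Units.val_one, β_one]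
  · intro g
    funext s
    show β (g : Q) (absMain_lam (π s) 1 * (↑(g⁻¹) : Q)) = 0
    rw [absMain_lam_one, zero_mul, β_zero]
  · intro g
    funext s
    show β (g : Q) (absMain_lam (π s) φ₀ * (↑(g⁻¹) : Q)) = 0
    unfold absMain_lam
    rw [hπφ, sub_self, zero_mul, zero_mul, β_zero]
  · intro g h
    funext s
    show T (absMain_lam (π s) (g * h)) = T (absMain_lam (π s) g) + T (absMain_lam (π s) h)
    rw [absMain_lam_mul (π s) (hπ s), T_add, mul_assoc, T_comm, mul_assoc, Units.inv_mul, mul_one]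
  · intro y hy h1 h2
    have hy1 : πt (y : Q) = 1 := by
      have h1 : Units.map (πt : Q →* Q) y = 1 := hy
      have h2 := congrArg (fun u : Qˣ => (u : Q)) h1
      simpa using h2
    have hfix : ∀ s, π s (y : Q) = y := by
      intro s
      have e1 : β (φ₀ : Q) (absMain_lam (π s) y * (↑(φ₀⁻¹) : Q)) = 0 := congrFun h1 s
      have e2 : T (absMain_lam (π s) y) = 0 := congrFun h2 s
      have e3 := det (absMain_lam (π s) y * (↑(φ₀⁻¹) : Q)) e1 (by
        rw [mul_assoc, Units.inv_mul, mul_one]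
        exact e2)
      have e4 : absMain_lam (π s) y = 0 := by
        have := congrArg (fun z => z * (φ₀ : Q)) e3
        simp only [mul_assoc, Units.inv_mul, mul_one, zero_mul] at this
        exact this
      have e5 : (y : Q) - π s y = 0 := by
        have := congrArg (fun z => z * (y : Q)) e4
        unfold absMain_lam at this
        simp only [mul_assoc, Units.inv_mul, mul_one, zero_mul] at this
        exact this
      exact (sub_eq_zero.1 e5).symm
    have := hπt _ hfix
    rw [hy1] at this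
    exact Units.ext this.symm
  · intro hbot
    have hjN : ∀ l, j l ∈ (Units.map (πt : Q →* Q)).ker := by
      intro l
      rw [MonoidHom.mem_ker]
      apply Units.ext
      show πt (j l : Q) = 1
      exact hj l
    let jN : L →* (Units.map (πt : Q →* Q)).ker := j.codRestrict _ hjN
    have h1 := map_derivedSeries_le_derivedSeries jN k
    have h2 : jN l ∈ derivedSeries (Units.map (πt : Q →* Q)).ker k := h1 ⟨l, hl, rfl⟩
    rw [hbot, Subgroup.mem_bot] at h2
    exact hjl (congrArg Subtype.val h2)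

end Pool.Agent.Helper904.Kh
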