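import Mathlib
import Pool.Agent.Helper904.Kh.Defs2

set_option autoImplicit false

namespace Pool.Agent.Helper904.Kh

open Matrix


/-- the linear map on the nilpotent part -/
def btdF : (Fin 3 → ZMod 5) →ₗ[ZMod 5] (Fin 3 → ZMod 5) where
  toFun v := ![v 0 - v 1 - v 2, v 1 + 2 * v 2, v 2]
  map_add' v v' := by
    funext i
    fin_cases i
    · show (v 0 + v' 0) - (v 1 + v' 1) - (v 2 + v' 2) = (v 0 - v 1 - v 2) + (v' 0 - v' 1 - v' 2)
      ring
    · show (v 1 + v' 1) + 2 * (v 2 + v' 2) = (v 1 + 2 * v 2) + (v' 1 + 2 * v' 2)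
      ring
    · rfl
  map_smul' r v := by
    funext i
    fin_cases i
    · show (r * v 0) - (r * v 1) - (r * v 2) = r * (v 0 - v 1 - v 2)
      ring
    · show (r * v 1) + 2 * (r * v 2) = r * (v 1 + 2 * v 2)
      ring
    · rfl

/-- the map to the matrices -/
def btdR : TrivSqZeroExt (ZMod 5) (Fin 3 → ZMod 5) →ₗ[ZMod 5] M2 (ZMod 5) where
  toFun x := !![3 * x.snd 1, x.snd 0; x.snd 2, -(3 * x.snd 1)]
  map_add' x y := by
    ext i j
    fin_cases i <;> fin_cases j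
    · show 3 * (x.snd 1 + y.snd 1) = 3 * x.snd 1 + 3 * y.snd 1
      ring
    · rfl
    · rfl
    · show -(3 * (x.snd 1 + y.snd 1)) = -(3 * x.snd 1) + -(3 * y.snd 1)
      ring
  map_smul' r x := by
    ext i j
    fin_cases i <;> fin_cases j
    · show 3 * (r * x.snd 1) = r * (3 * x.snd 1)
      ring
    · rfl
    · rfl
    · show -(3 * (r * x.snd 1)) = r * (-(3 * x.snd 1))
      ring

/-- the tensor -/
def btdW : M2 (TrivSqZeroExt (ZMod 5) (Fin 3 → ZMod 5)) :=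
  !![TrivSqZeroExt.inr ![0, 1, 0], TrivSqZeroExt.inr ![0, 0, 1];
    TrivSqZeroExt.inr ![1, 0, 0], TrivSqZeroExt.inr ![0, -1, 0]]

theorem btdW_inr (i j : Fin 2) : ∃ v, btdW i j = TrivSqZeroExt.inr v := by
  fin_cases i <;> fin_cases j
  · exact ⟨![0, 1, 0], rfl⟩
  · exact ⟨![0, 0, 1], rfl⟩
  · exact ⟨![1, 0, 0], rfl⟩
  · exact ⟨![0, -1, 0], rfl⟩

/-- the automorphism as an algebra map -/
def btdS : TrivSqZeroExt (ZMod 5) (Fin 3 → ZMod 5) →ₐ[ZMod 5]
    TrivSqZeroExt (ZMod 5) (Fin 3 → ZMod 5) := TrivSqZeroExt.map btdF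

/-- the automorphism as a ring map -/
def btdS' : TrivSqZeroExt (ZMod 5) (Fin 3 → ZMod 5) →+*
    TrivSqZeroExt (ZMod 5) (Fin 3 → ZMod 5) := (btdS : _ →+* _)

theorem btd_map_inr (v : Fin 3 → ZMod 5) :
    btdS' (TrivSqZeroExt.inr v) = TrivSqZeroExt.inr (btdF v) := TrivSqZeroExt.map_inr btdF v

theorem btd_tau : tau btdS' btdW = btdW := by
  have e00 : btdW 0 0 = TrivSqZeroExt.inr ![0, 1, 0] := rfl
  have e01 : btdW 0 1 = TrivSqZeroExt.inr ![0, 0, 1] := rfl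
  have e10 : btdW 1 0 = TrivSqZeroExt.inr ![1, 0, 0] := rfl
  have e11 : btdW 1 1 = TrivSqZeroExt.inr ![0, -1, 0] := rfl
  have h0 : btdF ![0, 1, 0] = ![-1, 1, 0] := by
    show (![(0 : ZMod 5) - 1 - 0, 1 + 2 * 0, 0] : Fin 3 → ZMod 5) = ![-1, 1, 0]
    decide
  have h1 : btdF ![0, 0, 1] = ![-1, 2, 1] := by
    show (![(0 : ZMod 5) - 0 - 1, 0 + 2 * 1, 1] : Fin 3 → ZMod 5) = ![-1, 2, 1]
    decide
  have h2 : btdF ![1, 0, 0] = ![1, 0, 0] := by
    show (![(1 : ZMod 5) - 0 - 0, 0 + 2 * 0, 0] : Fin 3 → ZMod 5) = ![1, 0, 0]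
    decide
  have h3 : btdF ![0, -1, 0] = ![1, -1, 0] := by
    show (![(0 : ZMod 5) - (-1) - 0, -1 + 2 * 0, 0] : Fin 3 → ZMod 5) = ![1, -1, 0]
    decide
  ext1 i j
  fin_cases i <;> fin_cases j
  · show tau _ btdW 0 0 = btdW 0 0
    rw [tau_00, e00, e10, btd_map_inr, btd_map_inr, h0, h2, ← TrivSqZeroExt.inr_add]
    congr 1
    decide
  · show tau _ btdW 0 1 = btdW 0 1
    rw [tau_01, e00, e01, e10, e11, btd_map_inr, btd_map_inr, btd_map_inr, btd_map_inr, h0, h1, h2,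
      h3, ← TrivSqZeroExt.inr_add, ← TrivSqZeroExt.inr_sub, ← TrivSqZeroExt.inr_sub]
    congr 1
    decide
  · show tau _ btdW 1 0 = btdW 1 0
    rw [tau_10, e10, btd_map_inr, h2]
  · show tau _ btdW 1 1 = btdW 1 1
    rw [tau_11, e10, e11, btd_map_inr, btd_map_inr, h2, h3, ← TrivSqZeroExt.inr_sub]
    congr 1
    decide

theorem btd_rho (x : TrivSqZeroExt (ZMod 5) (Fin 3 → ZMod 5)) :
    btdR (TrivSqZeroExt.map btdF x) = uM (ZMod 5) * btdR x * vM (ZMod 5) := by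
  obtain ⟨a, ha⟩ : ∃ a, a = x.snd 0 := ⟨_, rfl⟩
  obtain ⟨b, hb⟩ : ∃ b, b = x.snd 1 := ⟨_, rfl⟩
  obtain ⟨c, hc⟩ : ∃ c, c = x.snd 2 := ⟨_, rfl⟩
  have e1 : btdR x = !![3 * b, a; c, -(3 * b)] := by
    rw [ha, hb, hc]
    rfl
  have e2 : btdR (TrivSqZeroExt.map btdF x) =
      !![3 * (b + 2 * c), a - b - c; c, -(3 * (b + 2 * c))] := by
    have h : (TrivSqZeroExt.map btdF x).snd = btdF x.snd := TrivSqZeroExt.snd_map btdF x
    show !![3 * (TrivSqZeroExt.map btdF x).snd 1, (TrivSqZeroExt.map btdF x).snd 0;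
      (TrivSqZeroExt.map btdF x).snd 2, -(3 * (TrivSqZeroExt.map btdF x).snd 1)] = _
    rw [h, ha, hb, hc]
    rfl
  rw [e1, e2]
  clear e1 e2 ha hb hc
  revert a b c
  decide

theorem baseTD : ∃ (A : Type) (_ : CommRing A) (_ : Algebra (ZMod 5) A) (_ : Finite A),
    Nonempty (TD A) := by
  refine ⟨TrivSqZeroExt (ZMod 5) (Fin 3 → ZMod 5), inferInstance, inferInstance,
    inferInstanceAs (Finite (ZMod 5 × (Fin 3 → ZMod 5))), ⟨?_⟩⟩
  exact
  { σ := TrivSqZeroExt.map btdF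
    S := Unit
    finS := inferInstance
    π := fun _ => TrivSqZeroExt.map 0
    πt := TrivSqZeroExt.map 0
    w := btdW
    ρ := btdR
    comm := by
      intro s x
      refine TrivSqZeroExt.ext ?_ ?_
      · rw [TrivSqZeroExt.fst_map, TrivSqZeroExt.fst_map, TrivSqZeroExt.fst_map,
          TrivSqZeroExt.fst_map]
      · rw [TrivSqZeroExt.snd_map, TrivSqZeroExt.snd_map, TrivSqZeroExt.snd_map,
          LinearMap.zero_apply, TrivSqZeroExt.snd_map, LinearMap.zero_apply, map_zero]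
    sq := by
      intro s x y
      have h : ∀ x : TrivSqZeroExt (ZMod 5) (Fin 3 → ZMod 5),
          x - TrivSqZeroExt.map (0 : (Fin 3 → ZMod 5) →ₗ[ZMod 5] (Fin 3 → ZMod 5)) x =
            TrivSqZeroExt.inr x.snd := by
        intro x
        refine TrivSqZeroExt.ext ?_ ?_
        · rw [TrivSqZeroExt.fst_sub, TrivSqZeroExt.fst_map, sub_self, TrivSqZeroExt.fst_inr]
        · rw [TrivSqZeroExt.snd_sub, TrivSqZeroExt.snd_map, LinearMap.zero_apply, sub_zero,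
            TrivSqZeroExt.snd_inr]
      rw [h, h, TrivSqZeroExt.inr_mul_inr]
    clos := Submonoid.subset_closure (Set.mem_range_self ())
    τw := btd_tau
    ww := by
      intro i j k l
      obtain ⟨v, hv⟩ := btdW_inr i j
      obtain ⟨v', hv'⟩ := btdW_inr k l
      rw [hv, hv', TrivSqZeroExt.inr_mul_inr]
    πw := by
      intro i j
      obtain ⟨v, hv⟩ := btdW_inr i j
      rw [hv, TrivSqZeroExt.map_inr, LinearMap.zero_apply, TrivSqZeroExt.inr_zero]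
    ρσ := btd_rho
    ρw := by
      intro i j
      fin_cases i <;> fin_cases j
      · show (!![3 * 1, 0; 0, -(3 * 1)] : M2 (ZMod 5)) = !![3, 0; 0, -3]
        decide
      · show (!![3 * 0, 0; 1, -(3 * 0)] : M2 (ZMod 5)) = !![0, 0; 1, 0]
        decide
      · show (!![3 * 0, 1; 0, -(3 * 0)] : M2 (ZMod 5)) = !![0, 1; 0, 0]
        decide
      · show (!![3 * (-1), 0; 0, -(3 * (-1))] : M2 (ZMod 5)) = !![-3, 0; 0, 3]
        decide }

end Pool.Agent.Helper904.Kh
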