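import Mathlib
import Pool.Agent.Helper904.Kh.Defs2

set_option autoImplicit false

namespace Pool.Agent.Helper904.Kh

open Matrix


theorem chain0_gen {A : Type} [CommRing A] (σ : A →+* A) (i : Fin 3)
    (r : MvPolynomial (Fin 3) A) :
    MvPolynomial.pderiv i (sig0 σ r) =
      ∑ k : Fin 3, sig0 σ (MvPolynomial.pderiv k r) *
        MvPolynomial.pderiv i (sig0 σ (MvPolynomial.X k)) := by
  induction r using MvPolynomial.induction_on with
  | C x =>
    have h : sig0 σ (MvPolynomial.C x) = MvPolynomial.C (σ x) := by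
      unfold sig0
      rw [MvPolynomial.coe_eval₂Hom, MvPolynomial.eval₂_C]
      rfl
    rw [h, MvPolynomial.pderiv_C]
    simp
  | add p q hp hq =>
    rw [map_add, map_add, hp, hq, ← Finset.sum_add_distrib]
    refine Finset.sum_congr rfl fun k _ => ?_
    rw [map_add, map_add, add_mul]
  | mul_X p j hp =>
    rw [map_mul, Derivation.leibniz, hp, smul_eq_mul, smul_eq_mul, Finset.mul_sum]
    have h1 : ∀ k : Fin 3, sig0 σ (MvPolynomial.pderiv k (p * MvPolynomial.X j)) *
        MvPolynomial.pderiv i (sig0 σ (MvPolynomial.X k)) =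
        sig0 σ p * (sig0 σ (MvPolynomial.pderiv k (MvPolynomial.X j)) *
          MvPolynomial.pderiv i (sig0 σ (MvPolynomial.X k))) +
        sig0 σ (MvPolynomial.X j) * (sig0 σ (MvPolynomial.pderiv k p) *
          MvPolynomial.pderiv i (sig0 σ (MvPolynomial.X k))) := by
      intro k
      rw [Derivation.leibniz, smul_eq_mul, smul_eq_mul, map_add, map_mul, map_mul]
      ring
    simp only [h1]
    rw [Finset.sum_add_distrib]
    congr 1
    rw [← Finset.mul_sum]
    congr 1
    rw [Finset.sum_eq_single j]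
    · rw [MvPolynomial.pderiv_X_self, map_one, one_mul]
    · intro k _ hk
      rw [MvPolynomial.pderiv_X_of_ne hk.symm, map_zero, zero_mul]
    · intro h
      exact absurd (Finset.mem_univ j) h

theorem chain0_X0 {A : Type} [CommRing A] (σ : A →+* A) :
    sig0 σ (MvPolynomial.X 0) = MvPolynomial.X 0 := by
  unfold sig0
  rw [MvPolynomial.eval₂Hom_X']
  rfl

theorem chain0_X1 {A : Type} [CommRing A] (σ : A →+* A) :
    sig0 σ (MvPolynomial.X 1) = MvPolynomial.X 1 - MvPolynomial.X 0 := by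
  unfold sig0
  rw [MvPolynomial.eval₂Hom_X']
  rfl

theorem chain0_X2 {A : Type} [CommRing A] (σ : A →+* A) :
    sig0 σ (MvPolynomial.X 2) = MvPolynomial.X 2 + (MvPolynomial.X 1 + MvPolynomial.X 1) -
      MvPolynomial.X 0 := by
  unfold sig0
  rw [MvPolynomial.eval₂Hom_X', ← two_mul]
  rfl

theorem chain0_a {A : Type} [CommRing A] (σ : A →+* A) (r : MvPolynomial (Fin 3) A) :
    MvPolynomial.pderiv 0 (sig0 σ r) = sig0 σ (MvPolynomial.pderiv 0 r)
      - sig0 σ (MvPolynomial.pderiv 1 r) - sig0 σ (MvPolynomial.pderiv 2 r) := by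
  rw [chain0_gen, Fin.sum_univ_three, chain0_X0, chain0_X1, chain0_X2]
  simp only [map_sub, map_add, MvPolynomial.pderiv_X_self,
    MvPolynomial.pderiv_X_of_ne (show (1 : Fin 3) ≠ 0 by decide),
    MvPolynomial.pderiv_X_of_ne (show (2 : Fin 3) ≠ 0 by decide)]
  ring

theorem chain0_b {A : Type} [CommRing A] (σ : A →+* A) (r : MvPolynomial (Fin 3) A) :
    MvPolynomial.pderiv 1 (sig0 σ r) = sig0 σ (MvPolynomial.pderiv 1 r)
      + 2 * sig0 σ (MvPolynomial.pderiv 2 r) := by
  rw [chain0_gen, Fin.sum_univ_three, chain0_X0, chain0_X1, chain0_X2]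
  simp only [map_sub, map_add, MvPolynomial.pderiv_X_self,
    MvPolynomial.pderiv_X_of_ne (show (0 : Fin 3) ≠ 1 by decide),
    MvPolynomial.pderiv_X_of_ne (show (2 : Fin 3) ≠ 1 by decide)]
  ring

theorem chain0_c {A : Type} [CommRing A] (σ : A →+* A) (r : MvPolynomial (Fin 3) A) :
    MvPolynomial.pderiv 2 (sig0 σ r) = sig0 σ (MvPolynomial.pderiv 2 r) := by
  rw [chain0_gen, Fin.sum_univ_three, chain0_X0, chain0_X1, chain0_X2]
  simp only [map_sub, map_add, MvPolynomial.pderiv_X_self,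
    MvPolynomial.pderiv_X_of_ne (show (0 : Fin 3) ≠ 2 by decide),
    MvPolynomial.pderiv_X_of_ne (show (1 : Fin 3) ≠ 2 by decide)]
  ring

end Pool.Agent.Helper904.Kh
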