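import Mathlib
import Pool.Agent.Helper904.Kh.Defs

set_option autoImplicit false

namespace Pool.Agent.Helper904.Kh

open Matrix


theorem tau_map833 {R : Type} [CommRing R] (σ f : R →+* R) (hf : ∀ x, f (σ x) = σ (f x)) (m : M2 R) :
    tau σ (m.map f) = (tau σ m).map f := by
  ext i j
  fin_cases i <;> fin_cases j
  · show tau σ (m.map f) 0 0 = f (tau σ m 0 0)
    rw [tau_00, tau_00, map_add, hf, hf]
    rfl
  · show tau σ (m.map f) 0 1 = f (tau σ m 0 1)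
    rw [tau_01, tau_01, map_sub, map_sub, map_add, hf, hf, hf, hf]
    rfl
  · show tau σ (m.map f) 1 0 = f (tau σ m 1 0)
    rw [tau_10, tau_10, hf]
    rfl
  · show tau σ (m.map f) 1 1 = f (tau σ m 1 1)
    rw [tau_11, tau_11, map_sub, hf, hf]
    rfl

theorem tau_scalar833 {R : Type} [CommRing R] (σ : R →+* R) (r : R) :
    tau σ (r • (1 : M2 R)) = (σ r) • (1 : M2 R) := by
  ext i j
  fin_cases i <;> fin_cases j
  · show tau σ (r • (1 : M2 R)) 0 0 = ((σ r) • (1 : M2 R)) 0 0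
    rw [tau_00]
    simp
  · show tau σ (r • (1 : M2 R)) 0 1 = ((σ r) • (1 : M2 R)) 0 1
    rw [tau_01]
    simp
  · show tau σ (r • (1 : M2 R)) 1 0 = ((σ r) • (1 : M2 R)) 1 0
    rw [tau_10]
    simp
  · show tau σ (r • (1 : M2 R)) 1 1 = ((σ r) • (1 : M2 R)) 1 1
    rw [tau_11]
    simp

theorem JJ_mul_left {R : Type} [CommRing R] (σ : R →+* R) (x m : M2 R) (hx : tau σ x = x)
    (hm : m ∈ JJ σ) : x * m ∈ JJ σ := by
  obtain ⟨n, rfl⟩ := hm
  exact ⟨x * n, by rw [map_mul, hx, mul_sub]⟩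

theorem JJ_mul_right {R : Type} [CommRing R] (σ : R →+* R) (x m : M2 R) (hx : tau σ x = x)
    (hm : m ∈ JJ σ) : m * x ∈ JJ σ := by
  obtain ⟨n, rfl⟩ := hm
  exact ⟨n * x, by rw [map_mul, hx, sub_mul]⟩

theorem trace_tau {R : Type} [CommRing R] (σ : R →+* R) (m : M2 R) :
    (tau σ m).trace = σ m.trace := by
  rw [Matrix.trace_fin_two, Matrix.trace_fin_two, tau_00, tau_11, map_add]
  ring

theorem JJ_trace {R : Type} [CommRing R] (σ : R →+* R) (m : M2 R)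
    (hm : m ∈ JJ σ) : m.trace ∈ JS σ := by
  obtain ⟨n, rfl⟩ := hm
  exact ⟨n.trace, by rw [Matrix.trace_sub, trace_tau]⟩

theorem JJ_scalar {R : Type} [CommRing R] (σ : R →+* R) (r : R)
    (hr : r ∈ JS σ) (t : R) (ht : σ t = t) : (t * r) • (1 : M2 R) ∈ JJ σ := by
  obtain ⟨n, rfl⟩ := hr
  exact ⟨(t * n) • (1 : M2 R), by rw [tau_scalar833, map_mul, ht, ← sub_smul, mul_sub]⟩

theorem JJ_map {R : Type} [CommRing R] (σ f : R →+* R) (hf : ∀ x, f (σ x) = σ (f x)) (m : M2 R)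
    (hm : m ∈ JJ σ) : m.map f ∈ JJ σ := by
  obtain ⟨n, rfl⟩ := hm
  refine ⟨n.map f, ?_⟩
  rw [tau_map833 σ f hf]
  ext i j
  show f (tau σ n i j - n i j) = f (tau σ n i j) - f (n i j)
  exact map_sub f _ _

theorem tau_map {R : Type} [CommRing R] (σ f : R →+* R) (hf : ∀ x, f (σ x) = σ (f x)) (m : M2 R) :
    tau σ (m.map f) = (tau σ m).map f := by
  exact tau_map833 σ f hf m

end Pool.Agent.Helper904.Kh
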