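import Mathlib
import Pool.Agent.Helper904.Kh.Defs
import Pool.Agent.Helper904.Kh.P_jjFacts

set_option autoImplicit false

namespace Pool.Agent.Helper904.Kh

open Matrix


theorem comm_closure {R S : Type} [CommRing R] (σ : R →+* R) (π : S → R →+* R)
    (hπσ : ∀ s x, π s (σ x) = σ (π s x)) (f : R →+* R)
    (hf : f ∈ Submonoid.closure (Set.range π)) (x : R) : f (σ x) = σ (f x) := by
  revert x
  refine Submonoid.closure_induction (motive := fun f _ => ∀ x, f (σ x) = σ (f x)) ?_ ?_ ?_ hf
  · rintro _ ⟨s, rfl⟩ x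
    exact hπσ s x
  · intro x
    rfl
  · intro f g _ _ hf hg x
    show f (g (σ x)) = σ (f (g x))
    rw [hg, hf]

theorem fix_closure {R S : Type} [CommRing R] (σ : R →+* R) (π : S → R →+* R)
    (hπσ : ∀ s x, π s (σ x) = σ (π s x)) (f : R →+* R)
    (hf : f ∈ Submonoid.closure (Set.range π)) (y : M2 R)
    (hy : ∀ s, y.map (π s) - y ∈ JJ σ) : y.map f - y ∈ JJ σ := by
  refine Submonoid.closure_induction (motive := fun (f : R →+* R) _ => y.map f - y ∈ JJ σ) ?_ ?_ ?_ hf
  · rintro _ ⟨s, rfl⟩
    exact hy s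
  · have h1 : y.map (1 : R →+* R) = y := by
      ext i j
      rfl
    rw [h1, sub_self]
    exact (JJ σ).zero_mem
  · intro f g hf' _ hf hg
    have h1 : y.map (f * g : R →+* R) - y = ((y.map g) - y).map f + (y.map f - y) := by
      ext i j
      simp only [Matrix.sub_apply, Matrix.map_apply, Matrix.add_apply, map_sub]
      show f (g (y i j)) - y i j = _
      ring
    rw [h1]
    exact (JJ σ).add_mem (JJ_map σ f (comm_closure σ π hπσ f hf') _ hg) hf

end Pool.Agent.Helper904.Kh
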