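import Mathlib
import Pool.Agent.Helper904.Kh.Defs

set_option autoImplicit false

namespace Pool.Agent.Helper904.Kh

open Matrix


theorem tau_DM {R : Type} [CommRing R] (d : RD R) : tau d.σ (DM d) = DM d := by
  have h00 : DM d 0 0 = d.b := rfl
  have h01 : DM d 0 1 = d.c := rfl
  have h10 : DM d 1 0 = d.a := rfl
  have h11 : DM d 1 1 = -d.b := rfl
  ext i j
  fin_cases i <;> fin_cases j
  · change tau d.σ (DM d) 0 0 = DM d 0 0
    rw [tau_00, h00, h10, d.σa, d.σb]; ring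
  · change tau d.σ (DM d) 0 1 = DM d 0 1
    rw [tau_01, h00, h01, h10, h11, map_neg, d.σa, d.σb, d.σc]; ring
  · change tau d.σ (DM d) 1 0 = DM d 1 0
    rw [tau_10, h10, d.σa]
  · change tau d.σ (DM d) 1 1 = DM d 1 1
    rw [tau_11, h10, h11, map_neg, d.σa, d.σb]; ring

theorem DM_sq {R : Type} [CommRing R] (d : RD R) :
    DM d * DM d = (d.b ^ 2 + d.a * d.c) • (1 : M2 R) := by
  ext i j
  fin_cases i <;> fin_cases j <;>
    simp [DM, Matrix.mul_apply, Fin.sum_univ_two] <;> ring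

/-- auxiliary matrix -/
def DMz {R : Type} [CommRing R] (d : RD R) : M2 R :=
  !![(d.b ^ 2 + d.a * d.c) * (d.b ^ 2 * d.c + d.a * d.c ^ 2 + 3 * d.a ^ 3),
     (d.b ^ 2 + d.a * d.c) * (2 * d.b * d.c ^ 2);
     (d.b ^ 2 + d.a * d.c) * (4 * d.b ^ 3 + 4 * d.a * d.b * d.c),
     (d.b ^ 2 + d.a * d.c) * (4 * d.b ^ 2 * d.c + 4 * d.a * d.c ^ 2)]

theorem DM_pow_five {R : Type} [CommRing R] (d : RD R) : (DM d) ^ 5 ∈ JJ d.σ := by
  refine ⟨DMz d, ?_⟩
  have h5 : (DM d) ^ 5 = ((d.b ^ 2 + d.a * d.c) * (d.b ^ 2 + d.a * d.c)) • DM d := by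
    calc (DM d) ^ 5 = (DM d * DM d) * (DM d * DM d) * DM d := by
          simp only [pow_succ, pow_zero, one_mul, mul_assoc]
      _ = _ := by
          rw [DM_sq, smul_mul_smul_comm, one_mul, smul_mul_assoc, one_mul]
  rw [h5]
  have g00 : DM d 0 0 = d.b := rfl
  have g01 : DM d 0 1 = d.c := rfl
  have g10 : DM d 1 0 = d.a := rfl
  have g11 : DM d 1 1 = -d.b := rfl
  have h00 : DMz d 0 0 = (d.b ^ 2 + d.a * d.c) * (d.b ^ 2 * d.c + d.a * d.c ^ 2 + 3 * d.a ^ 3) := rfl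
  have h01 : DMz d 0 1 = (d.b ^ 2 + d.a * d.c) * (2 * d.b * d.c ^ 2) := rfl
  have h10 : DMz d 1 0 = (d.b ^ 2 + d.a * d.c) * (4 * d.b ^ 3 + 4 * d.a * d.b * d.c) := rfl
  have h11 : DMz d 1 1 = (d.b ^ 2 + d.a * d.c) * (4 * d.b ^ 2 * d.c + 4 * d.a * d.c ^ 2) := rfl
  have hf := d.five
  ext i j
  fin_cases i <;> fin_cases j
  · change ((d.b ^ 2 + d.a * d.c) * (d.b ^ 2 + d.a * d.c)) * DM d 0 0 = tau d.σ (DMz d) 0 0 - DMz d 0 0
    rw [tau_00, h00, h10, g00]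
    simp only [map_mul, map_add, map_pow, map_ofNat, d.σa, d.σb, d.σc]
    linear_combination (-(d.b ^ 2 + d.a * d.c) * (d.b ^ 3 + d.a * d.b * d.c - d.a * d.b ^ 2 -
      d.a ^ 2 * d.c)) * hf
  · change ((d.b ^ 2 + d.a * d.c) * (d.b ^ 2 + d.a * d.c)) * DM d 0 1 = tau d.σ (DMz d) 0 1 - DMz d 0 1
    rw [tau_01, h00, h01, h10, h11, g01]
    simp only [map_mul, map_add, map_pow, map_ofNat, d.σa, d.σb, d.σc]
    linear_combination (-(d.b ^ 2 + d.a * d.c) * (2 * d.b ^ 2 * d.c + 2 * d.b ^ 3 -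
      2 * d.a * d.b * d.c - 3 * d.a * d.b ^ 2 + d.a ^ 2 * d.c + 2 * d.a ^ 2 * d.b - d.a ^ 3)) * hf
  · change ((d.b ^ 2 + d.a * d.c) * (d.b ^ 2 + d.a * d.c)) * DM d 1 0 = tau d.σ (DMz d) 1 0 - DMz d 1 0
    rw [tau_10, h10, g10]
    simp only [map_mul, map_add, map_pow, map_ofNat, d.σa, d.σb, d.σc]
    linear_combination (-(d.b ^ 2 + d.a * d.c) * (-d.a * d.b ^ 2 - d.a ^ 2 * d.c)) * hf
  · change ((d.b ^ 2 + d.a * d.c) * (d.b ^ 2 + d.a * d.c)) * DM d 1 1 = tau d.σ (DMz d) 1 1 - DMz d 1 1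
    rw [tau_11, h10, h11, g11]
    simp only [map_mul, map_add, map_pow, map_ofNat, d.σa, d.σb, d.σc]
    linear_combination (-(d.b ^ 2 + d.a * d.c) * (d.b ^ 3 + d.a * d.b * d.c)) * hf

theorem form_DM {R : Type} [CommRing R] (d : RD R) (k : M2 R) :
    form d (1 + DM d) k = k - (3 * k.trace) • (1 : M2 R) := by
  have ha1 : d.da 1 = 0 := by
    have h := d.da_mul 1 1
    rw [mul_one, mul_one, one_mul] at h
    exact (left_eq_add.1 h)
  have hb1 : d.db 1 = 0 := by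
    have h := d.db_mul 1 1
    rw [mul_one, mul_one, one_mul] at h
    exact (left_eq_add.1 h)
  have hc1 : d.dc 1 = 0 := by
    have h := d.dc_mul 1 1
    rw [mul_one, mul_one, one_mul] at h
    exact (left_eq_add.1 h)
  have hf := d.five
  have hk : k.trace = k 0 0 + k 1 1 := Matrix.trace_fin_two k
  have e00 : (1 + DM d) 0 0 = 1 + d.b := rfl
  have e01 : (1 + DM d) 0 1 = 0 + d.c := rfl
  have e10 : (1 + DM d) 1 0 = 0 + d.a := rfl
  have e11 : (1 + DM d) 1 1 = 1 + -d.b := rfl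
  have tb : ((1 + DM d).map d.db * k).trace = k 0 0 - k 1 1 := by
    rw [Matrix.trace_fin_two, Matrix.mul_apply, Matrix.mul_apply, Fin.sum_univ_two, Fin.sum_univ_two]
    simp only [Matrix.map_apply, e00, e01, e10, e11, map_add, map_neg, map_zero, hb1, d.db_a, d.db_b,
      d.db_c]
    ring
  have ta : ((1 + DM d).map d.da * k).trace = k 0 1 := by
    rw [Matrix.trace_fin_two, Matrix.mul_apply, Matrix.mul_apply, Fin.sum_univ_two, Fin.sum_univ_two]
    simp only [Matrix.map_apply, e00, e01, e10, e11, map_add, map_neg, map_zero, ha1, d.da_a, d.da_b,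
      d.da_c]
    ring
  have tc : ((1 + DM d).map d.dc * k).trace = k 1 0 := by
    rw [Matrix.trace_fin_two, Matrix.mul_apply, Matrix.mul_apply, Fin.sum_univ_two, Fin.sum_univ_two]
    simp only [Matrix.map_apply, e00, e01, e10, e11, map_add, map_neg, map_zero, hc1, d.dc_a, d.dc_b,
      d.dc_c]
    ring
  unfold form
  rw [ta, tb, tc, hk]
  ext i j
  fin_cases i <;> fin_cases j
  · change 3 * (k 0 0 - k 1 1) = k 0 0 - (3 * (k 0 0 + k 1 1)) * (1 : M2 R) 0 0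
    rw [Matrix.one_apply_eq]
    linear_combination (k 0 0) * hf
  · change k 0 1 = k 0 1 - (3 * (k 0 0 + k 1 1)) * (1 : M2 R) 0 1
    rw [Matrix.one_apply_ne (by decide)]
    ring
  · change k 1 0 = k 1 0 - (3 * (k 0 0 + k 1 1)) * (1 : M2 R) 1 0
    rw [Matrix.one_apply_ne (by decide)]
    ring
  · change -(3 * (k 0 0 - k 1 1)) = k 1 1 - (3 * (k 0 0 + k 1 1)) * (1 : M2 R) 1 1
    rw [Matrix.one_apply_eq]
    linear_combination (k 1 1) * hf

end Pool.Agent.Helper904.Kh
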