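import Mathlib
import Pool.Agent.Helper904.Kh.Defs
import Pool.Agent.Helper904.Kh.P_dmFacts
import Pool.Agent.Helper904.Kh.P_jjFacts

set_option autoImplicit false

namespace Pool.Agent.Helper904.Kh

open Matrix


theorem detect {R : Type} [CommRing R] (d : RD R) (k : M2 R) (hk : tau d.σ k = k)
    (h1 : form d (1 + DM d) k ∈ JJ d.σ) (h2 : (k * (1 + DM d)).trace ∈ JS d.σ) :
    k ∈ JJ d.σ := by
  rw [form_DM] at h1
  have hA : tau d.σ (1 + DM d) = 1 + DM d := by rw [map_add, map_one, tau_DM]
  have h3 := JJ_trace _ _ (JJ_mul_right d.σ (1 + DM d) _ hA h1)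
  have htr : (1 + DM d).trace = 2 := by
    rw [Matrix.trace_add, Matrix.trace_one]
    have : (DM d).trace = 0 := by
      simp [DM, Matrix.trace, Fin.sum_univ_two]
    rw [this]
    simp
  have h4 : ((k - (3 * k.trace) • (1 : M2 R)) * (1 + DM d)).trace =
      (k * (1 + DM d)).trace - k.trace := by
    rw [sub_mul, Matrix.trace_sub, Matrix.smul_mul, one_mul, Matrix.trace_smul, htr, smul_eq_mul]
    have h5 := d.five
    linear_combination -k.trace * h5
  rw [h4] at h3
  have h6 : k.trace ∈ JS d.σ := by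
    have := (JS d.σ).sub_mem h2 h3
    rwa [sub_sub_cancel] at this
  have h7 := JJ_scalar d.σ k.trace h6 3 (by
    have : (3 : R) = ((3 : ℕ) : R) := by norm_num
    rw [this, map_natCast])
  have h8 := (JJ d.σ).add_mem h1 h7
  rwa [sub_add_cancel] at h8

end Pool.Agent.Helper904.Kh
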