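import Mathlib
import Pool.Agent.Helper904.Kh.Defs
import Pool.Agent.Helper904.Kh.P_jjFacts

set_option autoImplicit false

namespace Pool.Agent.Helper904.Kh

open Matrix


/-- the two-sided ideal of the fixed ring -/
def existsQ_I {R : Type} [CommRing R] (σ : R →+* R) : Ideal (Fix σ) where
  carrier := {x | (x : M2 R) ∈ JJ σ}
  add_mem' := by
    intro a b ha hb
    exact (JJ σ).add_mem ha hb
  zero_mem' := (JJ σ).zero_mem
  smul_mem' := by
    intro c x hx
    exact JJ_mul_left σ (c : M2 R) (x : M2 R) ((mem_Fix σ _).1 c.2) hx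

theorem existsQ_I_two {R : Type} [CommRing R] (σ : R →+* R) : (existsQ_I σ).IsTwoSided := by
  refine ⟨?_⟩
  intro a b ha
  exact JJ_mul_right σ (b : M2 R) (a : M2 R) ((mem_Fix σ _).1 b.2) ha

/-- the induced map of the fixed ring -/
def existsInd_phi {R : Type} [CommRing R] (σ f : R →+* R) (hf : ∀ x, f (σ x) = σ (f x)) :
    Fix σ →+* Fix σ where
  toFun x := ⟨(x : M2 R).map f, by
    rw [mem_Fix, tau_map σ f hf, (mem_Fix σ _).1 x.2]⟩
  map_one' := by
    apply Subtype.ext
    exact Matrix.map_one f (map_zero f) (map_one f)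
  map_mul' x y := by
    apply Subtype.ext
    exact Matrix.map_mul
  map_zero' := by
    apply Subtype.ext
    exact Matrix.map_zero f (map_zero f)
  map_add' x y := by
    apply Subtype.ext
    exact Matrix.map_add f (map_add f) _ _

theorem exists_Q {R : Type} [CommRing R] [Finite R] (σ : R →+* R) :
    ∃ (Q : Type) (_ : Ring Q) (_ : Finite Q) (q : Fix σ →+* Q), Function.Surjective q ∧
      ∀ x : Fix σ, q x = 0 ↔ (x : M2 R) ∈ JJ σ := by
  haveI := existsQ_I_two σ
  haveI : Finite (M2 R) := inferInstanceAs (Finite (Fin 2 → Fin 2 → R))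
  haveI : Finite (Fix σ) := Subtype.finite
  have hs : Function.Surjective (Ideal.Quotient.mk (existsQ_I σ)) := Ideal.Quotient.mk_surjective
  refine ⟨Fix σ ⧸ existsQ_I σ, inferInstance, Finite.of_surjective _ hs,
    Ideal.Quotient.mk (existsQ_I σ), hs, ?_⟩
  intro x
  exact Ideal.Quotient.eq_zero_iff_mem

theorem exists_ind {R Q : Type} [CommRing R] [Ring Q] (σ : R →+* R) (q : Fix σ →+* Q)
    (hq : Function.Surjective q) (hq0 : ∀ x : Fix σ, q x = 0 ↔ (x : M2 R) ∈ JJ σ)
    (f : R →+* R) (hf : ∀ x, f (σ x) = σ (f x)) :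
    ∃ F : Q →+* Q, ∀ x y : Fix σ, (y : M2 R) = (x : M2 R).map f → F (q x) = q y := by
  have hker : RingHom.ker q ≤ RingHom.ker (q.comp (existsInd_phi σ f hf)) := by
    intro x hx
    rw [RingHom.mem_ker] at hx ⊢
    rw [RingHom.comp_apply, hq0]
    exact JJ_map σ f hf _ ((hq0 x).1 hx)
  refine ⟨RingHom.liftOfRightInverse q (Function.surjInv hq) (Function.rightInverse_surjInv hq)
    ⟨q.comp (existsInd_phi σ f hf), hker⟩, ?_⟩
  intro x y hxy
  rw [RingHom.liftOfRightInverse_comp_apply]
  show q (existsInd_phi σ f hf x) = q y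
  congr 1
  apply Subtype.ext
  exact hxy.symm

end Pool.Agent.Helper904.Kh
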