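import Mathlib
import Pool.Agent.Helper904.Kh.Defs

set_option autoImplicit false

namespace Pool.Agent.Helper904.Kh

open Matrix


theorem final_core (k : ℕ) (hk : 1 ≤ k) (h : Good k) :
    ∃ (G : Type) (_ : Group G) (_ : Finite G), IsPGroup 5 G ∧
      ∃ φ : MulAut G, orderOf φ = 5 ∧ (∀ g : G, φ g = g → g ∈ Subgroup.center G) ∧
        derivedSeries G k ≠ ⊥ := by
  obtain ⟨G, iG, iF, hP, e, he, hfix, hd⟩ := h
  refine ⟨G, iG, iF, hP, ?_⟩
  let φ : MulAut G :=
    { toFun := fun g => e g
      invFun := fun g => e (e (e (e g)))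
      left_inv := fun g => he g
      right_inv := fun g => he g
      map_mul' := fun x y => map_mul e x y }
  have hφ : ∀ g, φ g = e g := fun g => rfl
  have h5 : φ ^ 5 = 1 := by
    ext g
    have : (φ ^ 5) g = φ (φ (φ (φ (φ g)))) := rfl
    rw [this]
    simp only [hφ]
    exact he g
  have h1 : φ ≠ 1 := by
    intro h1
    apply hd
    have hc : Subgroup.center G = ⊤ := by
      rw [Subgroup.eq_top_iff']
      intro g
      apply hfix
      rw [← hφ, h1]
      rfl
    have h2 : derivedSeries G 1 = ⊥ := by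
      rw [derivedSeries_one]
      exact (commutator_eq_bot_iff_center_eq_top G).2 hc
    have h3 := derivedSeries_antitone G hk
    rw [h2] at h3
    exact le_bot_iff.1 h3
  have : Fact (Nat.Prime 5) := ⟨by norm_num⟩
  exact ⟨φ, orderOf_eq_prime h5 h1, fun g hg => hfix g hg, hd⟩

/-- A3: the two frozen statements from the existence of good groups -/
theorem final_p (H : ∀ k, Good k) :
    ¬ (∃ f : ℕ → ℕ, ∀ (p : ℕ), p.Prime →
      ∀ (G : Type) [Group G] [Finite G], IsPGroup p G →
        ∀ φ : MulAut G, orderOf φ = p →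
          (∀ g : G, φ g = g → g ∈ Subgroup.center G) →
            derivedSeries G (f p) = ⊥) := by
  rintro ⟨f, hf⟩
  obtain ⟨G, iG, iF, hP, φ, ho, hfix, hd⟩ := final_core (f 5 + 1) (by omega) (H (f 5 + 1))
  have h := hf 5 (by norm_num) G hP φ ho hfix
  apply hd
  have h3 := derivedSeries_antitone G (Nat.le_succ (f 5))
  rw [h] at h3
  exact le_bot_iff.1 h3

theorem final_sol (H : ∀ k, Good k) :
    ¬ (∃ f : ℕ → ℕ, ∀ p : ℕ, p.Prime →
      ∀ (G : Type) [Group G] [Finite G], IsSolvable G →
        ∀ φ : MulAut G, orderOf φ = p →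
          (∀ g : G, φ g = g → g ∈ Subgroup.center G) →
            derivedSeries G (f p) = ⊥) := by
  rintro ⟨f, hf⟩
  obtain ⟨G, iG, iF, hP, φ, ho, hfix, hd⟩ := final_core (f 5 + 1) (by omega) (H (f 5 + 1))
  have : Fact (Nat.Prime 5) := ⟨by norm_num⟩
  have : Group.IsNilpotent G := hP.isNilpotent
  have hs : Group.IsSolvable G := inferInstance
  have h := hf 5 (by norm_num) G hs φ ho hfix
  apply hd
  have h3 := derivedSeries_antitone G (Nat.le_succ (f 5))
  rw [h] at h3
  exact le_bot_iff.1 h3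

end Pool.Agent.Helper904.Kh
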