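import Mathlib
import Pool.Agent.Helper904.Kh.Defs

set_option autoImplicit false

namespace Pool.Agent.Helper904.Kh

open Matrix


theorem form_mul {R : Type} [CommRing R] (d : RD R) (m n k : M2 R) :
    form d (m * n) k = form d m (n * k) + form d n (k * m) := by
  ext i j
  fin_cases i <;> fin_cases j <;>
    simp only [form, Matrix.trace_fin_two, Matrix.mul_apply, Fin.sum_univ_two, Matrix.map_apply,
      d.da_mul, d.db_mul, d.dc_mul, map_add, Matrix.add_apply, Matrix.of_apply, Matrix.cons_val',
      Matrix.cons_val_zero, Matrix.cons_val_one, Matrix.cons_val_fin_one, Fin.zero_eta,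
      Fin.mk_one] <;> ring

theorem form_add_left {R : Type} [CommRing R] (d : RD R) (m m' k : M2 R) :
    form d (m + m') k = form d m k + form d m' k := by
  ext i j
  fin_cases i <;> fin_cases j <;>
    simp only [form, Matrix.trace_fin_two, Matrix.mul_apply, Fin.sum_univ_two, Matrix.map_apply,
      map_add, Matrix.add_apply, Matrix.of_apply, Matrix.cons_val',
      Matrix.cons_val_zero, Matrix.cons_val_one, Matrix.cons_val_fin_one, Fin.zero_eta,
      Fin.mk_one] <;> ring

theorem form_add_right {R : Type} [CommRing R] (d : RD R) (m k k' : M2 R) :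
    form d m (k + k') = form d m k + form d m k' := by
  ext i j
  fin_cases i <;> fin_cases j <;>
    simp only [form, Matrix.trace_fin_two, Matrix.mul_apply, Fin.sum_univ_two, Matrix.map_apply,
      map_add, Matrix.add_apply, Matrix.of_apply, Matrix.cons_val',
      Matrix.cons_val_zero, Matrix.cons_val_one, Matrix.cons_val_fin_one, Fin.zero_eta,
      Fin.mk_one] <;> ring

theorem form_sub_left {R : Type} [CommRing R] (d : RD R) (m m' k : M2 R) :
    form d (m - m') k = form d m k - form d m' k := by
  ext i j
  fin_cases i <;> fin_cases j <;>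
    simp only [form, Matrix.trace_fin_two, Matrix.mul_apply, Fin.sum_univ_two, Matrix.map_apply,
      map_sub, Matrix.sub_apply, Matrix.of_apply, Matrix.cons_val',
      Matrix.cons_val_zero, Matrix.cons_val_one, Matrix.cons_val_fin_one, Fin.zero_eta,
      Fin.mk_one] <;> ring

theorem form_sub_right {R : Type} [CommRing R] (d : RD R) (m k k' : M2 R) :
    form d m (k - k') = form d m k - form d m k' := by
  ext i j
  fin_cases i <;> fin_cases j <;>
    simp only [form, Matrix.trace_fin_two, Matrix.mul_apply, Fin.sum_univ_two, Matrix.map_apply,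
      map_sub, Matrix.sub_apply, Matrix.of_apply, Matrix.cons_val',
      Matrix.cons_val_zero, Matrix.cons_val_one, Matrix.cons_val_fin_one, Fin.zero_eta,
      Fin.mk_one] <;> ring

end Pool.Agent.Helper904.Kh
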