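import Mathlib
import Pool.Agent.Helper904.Kh.Defs

set_option autoImplicit false

namespace Pool.Agent.Helper904.Kh

open Matrix


theorem ft_tr {R : Type} [CommRing R] (f : R → R) (m k : M2 R) :
    (m.map f * k).trace = f (m 0 0) * k 0 0 + f (m 0 1) * k 1 0 + f (m 1 0) * k 0 1 +
      f (m 1 1) * k 1 1 := by
  rw [Matrix.trace_fin_two, Matrix.mul_apply, Matrix.mul_apply, Fin.sum_univ_two,
    Fin.sum_univ_two]
  simp only [Matrix.map_apply]
  ring

theorem ft_B {R : Type} [CommRing R] (d : RD R) (m k : M2 R) :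
    ((tau d.σ m).map d.db * tau d.σ k).trace =
      d.σ ((m.map d.db * k).trace) + 2 * d.σ ((m.map d.dc * k).trace) := by
  simp only [ft_tr, tau_00, tau_01, tau_10, tau_11, map_add, map_sub, map_mul, d.db_σ]
  ring

theorem ft_A {R : Type} [CommRing R] (d : RD R) (m k : M2 R) :
    ((tau d.σ m).map d.da * tau d.σ k).trace =
      d.σ ((m.map d.da * k).trace) - d.σ ((m.map d.db * k).trace) -
        d.σ ((m.map d.dc * k).trace) := by
  simp only [ft_tr, tau_00, tau_01, tau_10, tau_11, map_add, map_sub, map_mul, d.da_σ]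
  ring

theorem ft_C {R : Type} [CommRing R] (d : RD R) (m k : M2 R) :
    ((tau d.σ m).map d.dc * tau d.σ k).trace = d.σ ((m.map d.dc * k).trace) := by
  simp only [ft_tr, tau_00, tau_01, tau_10, tau_11, map_add, map_sub, map_mul, d.dc_σ]
  ring

theorem form_tau {R : Type} [CommRing R] (d : RD R) (m k : M2 R) :
    form d (tau d.σ m) (tau d.σ k) = tau d.σ (form d m k) := by
  have h00 : ∀ m k, form d m k 0 0 = 3 * (m.map d.db * k).trace := fun _ _ => rfl
  have h01 : ∀ m k, form d m k 0 1 = (m.map d.da * k).trace := fun _ _ => rfl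
  have h10 : ∀ m k, form d m k 1 0 = (m.map d.dc * k).trace := fun _ _ => rfl
  have h11 : ∀ m k, form d m k 1 1 = -(3 * (m.map d.db * k).trace) := fun _ _ => rfl
  have h3 : d.σ 3 = 3 := map_ofNat d.σ 3
  have g00 : form d (tau d.σ m) (tau d.σ k) 0 0 = tau d.σ (form d m k) 0 0 := by
    rw [tau_00, h00, h00, h10, ft_B, map_mul, h3]
    linear_combination (d.σ ((m.map d.dc * k).trace)) * d.five
  have g01 : form d (tau d.σ m) (tau d.σ k) 0 1 = tau d.σ (form d m k) 0 1 := by
    rw [tau_01, h01, h00, h01, h10, h11, ft_A, map_neg, map_mul, h3]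
    linear_combination (d.σ ((m.map d.db * k).trace)) * d.five
  have g10 : form d (tau d.σ m) (tau d.σ k) 1 0 = tau d.σ (form d m k) 1 0 := by
    rw [tau_10, h10, h10, ft_C]
  have g11 : form d (tau d.σ m) (tau d.σ k) 1 1 = tau d.σ (form d m k) 1 1 := by
    rw [tau_11, h11, h11, h10, ft_B, map_neg, map_mul, h3]
    linear_combination (-(d.σ ((m.map d.dc * k).trace))) * d.five
  ext i j
  fin_cases i <;> fin_cases j
  · exact g00
  · exact g01
  · exact g10
  · exact g11

end Pool.Agent.Helper904.Kh
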