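import Mathlib
import Pool.Agent.Helper904.Kh.Defs
import Pool.Agent.Helper904.Kh.P_formTau
import Pool.Agent.Helper904.Kh.P_formMul

set_option autoImplicit false

namespace Pool.Agent.Helper904.Kh

open Matrix

theorem form_JJ_left {R : Type} [CommRing R] (d : RD R) (m k : M2 R) (hm : m ∈ JJ d.σ)
    (hk : tau d.σ k = k) : form d m k ∈ JJ d.σ := by
  obtain ⟨n, rfl⟩ := hm
  refine ⟨form d n k, ?_⟩
  rw [form_sub_left, ← form_tau, hk]

theorem form_JJ_right {R : Type} [CommRing R] (d : RD R) (m k : M2 R) (hm : tau d.σ m = m)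
    (hk : k ∈ JJ d.σ) : form d m k ∈ JJ d.σ := by
  obtain ⟨n, rfl⟩ := hk
  refine ⟨form d m n, ?_⟩
  rw [form_sub_right, ← form_tau, hm]

end Pool.Agent.Helper904.Kh
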