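import Mathlib
import Pool.Agent.Helper904.Kh.Defs2

set_option autoImplicit false

namespace Pool.Agent.Helper904.Kh

open Matrix



theorem tensorTD_tau_map {R R' : Type} [CommRing R] [CommRing R'] (σ : R →+* R) (σ' : R' →+* R')
    (φ : R →+* R') (h : ∀ a, σ' (φ a) = φ (σ a)) (m : M2 R) :
    tau σ' (m.map φ) = (tau σ m).map φ := by
  ext i j
  fin_cases i <;> fin_cases j
  · show tau σ' (m.map φ) 0 0 = φ (tau σ m 0 0)
    rw [tau_00, tau_00]; simp [h]
  · show tau σ' (m.map φ) 0 1 = φ (tau σ m 0 1)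
    rw [tau_01, tau_01]; simp [h]
  · show tau σ' (m.map φ) 1 0 = φ (tau σ m 1 0)
    rw [tau_10, tau_10]; simp [h]
  · show tau σ' (m.map φ) 1 1 = φ (tau σ m 1 1)
    rw [tau_11, tau_11]; simp [h]

open scoped TensorProduct in
theorem tensorTD_clos {A : Type} [CommRing A] [Algebra (ZMod 5) A] {S : Type}
    (π : S → (A →ₐ[ZMod 5] A)) (πt : A →ₐ[ZMod 5] A) (hc : πt ∈ Submonoid.closure (Set.range π)) :
    Algebra.TensorProduct.map πt πt ∈ Submonoid.closure (Set.range
      (Sum.elim (fun s => Algebra.TensorProduct.map (π s) (AlgHom.id (ZMod 5) A))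
        (fun s => Algebra.TensorProduct.map (AlgHom.id (ZMod 5) A) (π s)) :
        S ⊕ S → ((A ⊗[ZMod 5] A) →ₐ[ZMod 5] (A ⊗[ZMod 5] A)))) := by
  set C := Submonoid.closure (Set.range
      (Sum.elim (fun s => Algebra.TensorProduct.map (π s) (AlgHom.id (ZMod 5) A))
        (fun s => Algebra.TensorProduct.map (AlgHom.id (ZMod 5) A) (π s)) :
        S ⊕ S → ((A ⊗[ZMod 5] A) →ₐ[ZMod 5] (A ⊗[ZMod 5] A)))) with hC
  have h1 : ∀ f ∈ Submonoid.closure (Set.range π),
      Algebra.TensorProduct.map f (AlgHom.id (ZMod 5) A) ∈ C := by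
    intro f hf
    induction hf using Submonoid.closure_induction with
    | mem x hx =>
      obtain ⟨s, rfl⟩ := hx
      exact Submonoid.subset_closure ⟨Sum.inl s, rfl⟩
    | one =>
      have : Algebra.TensorProduct.map (1 : A →ₐ[ZMod 5] A) (AlgHom.id (ZMod 5) A) = 1 := by
        apply AlgHom.ext
        intro x
        induction x using TensorProduct.induction_on with
        | zero => simp
        | tmul a b => simp
        | add a b ha hb => rw [map_add, map_add, ha, hb]
      rw [this]
      exact C.one_mem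
    | mul f g _ _ hf hg =>
      have : Algebra.TensorProduct.map (f * g) (AlgHom.id (ZMod 5) A)
          = Algebra.TensorProduct.map f (AlgHom.id (ZMod 5) A) *
            Algebra.TensorProduct.map g (AlgHom.id (ZMod 5) A) := by
        apply AlgHom.ext
        intro x
        induction x using TensorProduct.induction_on with
        | zero => simp
        | tmul a b => simp [AlgHom.mul_apply]
        | add a b ha hb => rw [map_add, map_add, ha, hb]
      rw [this]
      exact C.mul_mem hf hg
  have h2 : ∀ f ∈ Submonoid.closure (Set.range π),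
      Algebra.TensorProduct.map (AlgHom.id (ZMod 5) A) f ∈ C := by
    intro f hf
    induction hf using Submonoid.closure_induction with
    | mem x hx =>
      obtain ⟨s, rfl⟩ := hx
      exact Submonoid.subset_closure ⟨Sum.inr s, rfl⟩
    | one =>
      have : Algebra.TensorProduct.map (AlgHom.id (ZMod 5) A) (1 : A →ₐ[ZMod 5] A) = 1 := by
        apply AlgHom.ext
        intro x
        induction x using TensorProduct.induction_on with
        | zero => simp
        | tmul a b => simp
        | add a b ha hb => rw [map_add, map_add, ha, hb]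
      rw [this]
      exact C.one_mem
    | mul f g _ _ hf hg =>
      have : Algebra.TensorProduct.map (AlgHom.id (ZMod 5) A) (f * g)
          = Algebra.TensorProduct.map (AlgHom.id (ZMod 5) A) f *
            Algebra.TensorProduct.map (AlgHom.id (ZMod 5) A) g := by
        apply AlgHom.ext
        intro x
        induction x using TensorProduct.induction_on with
        | zero => simp
        | tmul a b => simp [AlgHom.mul_apply]
        | add a b ha hb => rw [map_add, map_add, ha, hb]
      rw [this]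
      exact C.mul_mem hf hg
  have h3 : Algebra.TensorProduct.map πt πt
      = Algebra.TensorProduct.map πt (AlgHom.id (ZMod 5) A) *
        Algebra.TensorProduct.map (AlgHom.id (ZMod 5) A) πt := by
    apply AlgHom.ext
    intro x
    induction x using TensorProduct.induction_on with
    | zero => simp
    | tmul a b => simp [AlgHom.mul_apply]
    | add a b ha hb => rw [map_add, map_add, ha, hb]
  rw [h3]
  exact C.mul_mem (h1 _ hc) (h2 _ hc)

theorem tensorTD_Om : ∀ i j : Fin 2,
    (Om i 0 * Om 0 j - Om 0 j * Om i 0) + (Om i 1 * Om 1 j - Om 1 j * Om i 1)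
      - ((Om 0 j * Om i 0 - Om i 0 * Om 0 j) + (Om 1 j * Om i 1 - Om i 1 * Om 1 j)) = Om i j := by
  decide

open scoped TensorProduct in
theorem tensorTD {A : Type} [CommRing A] [Algebra (ZMod 5) A] (T : TD A) :
    ∃ T' : TD (A ⊗[ZMod 5] A),
      T'.σ = Algebra.TensorProduct.map T.σ T.σ ∧ T'.πt = Algebra.TensorProduct.map T.πt T.πt ∧
      T'.w = T.w.map (fun x => (x ⊗ₜ[ZMod 5] (1 : A) : A ⊗[ZMod 5] A)) *
          T.w.map (fun x => ((1 : A) ⊗ₜ[ZMod 5] x : A ⊗[ZMod 5] A))
        - T.w.map (fun x => ((1 : A) ⊗ₜ[ZMod 5] x : A ⊗[ZMod 5] A)) *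
          T.w.map (fun x => (x ⊗ₜ[ZMod 5] (1 : A) : A ⊗[ZMod 5] A)) := by
  classical
  have hfin := T.finS
  let bil : A →ₗ[ZMod 5] A →ₗ[ZMod 5] M2 (ZMod 5) :=
    LinearMap.mk₂ (ZMod 5) (fun x y => T.ρ x * T.ρ y - T.ρ y * T.ρ x)
      (by intro a b c; simp only [map_add, add_mul, mul_add]; abel)
      (by intro c a b; simp only [map_smul, smul_mul_assoc, mul_smul_comm, smul_sub])
      (by intro a b c; simp only [map_add, add_mul, mul_add]; abel)
      (by intro c a b; simp only [map_smul, smul_mul_assoc, mul_smul_comm, smul_sub])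
  let ρ' : (A ⊗[ZMod 5] A) →ₗ[ZMod 5] M2 (ZMod 5) := TensorProduct.lift bil
  have hρ' : ∀ a b : A, ρ' (a ⊗ₜ[ZMod 5] b) = T.ρ a * T.ρ b - T.ρ b * T.ρ a := fun a b => rfl
  have hW : ∀ i j, (T.w.map (fun x => (x ⊗ₜ[ZMod 5] (1 : A) : A ⊗[ZMod 5] A)) *
          T.w.map (fun x => ((1 : A) ⊗ₜ[ZMod 5] x : A ⊗[ZMod 5] A))
        - T.w.map (fun x => ((1 : A) ⊗ₜ[ZMod 5] x : A ⊗[ZMod 5] A)) *
          T.w.map (fun x => (x ⊗ₜ[ZMod 5] (1 : A) : A ⊗[ZMod 5] A))) i j
      = ((T.w i 0) ⊗ₜ[ZMod 5] (T.w 0 j) + (T.w i 1) ⊗ₜ[ZMod 5] (T.w 1 j))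
        - ((T.w 0 j) ⊗ₜ[ZMod 5] (T.w i 0) + (T.w 1 j) ⊗ₜ[ZMod 5] (T.w i 1)) := by
    intro i j
    simp only [Matrix.sub_apply, Matrix.mul_apply, Fin.sum_univ_two, Matrix.map_apply,
      Algebra.TensorProduct.tmul_mul_tmul, mul_one, one_mul]
  refine ⟨{ σ := Algebra.TensorProduct.map T.σ T.σ
            S := T.S ⊕ T.S
            finS := inferInstance
            π := Sum.elim (fun s => Algebra.TensorProduct.map (T.π s) (AlgHom.id (ZMod 5) A))
              (fun s => Algebra.TensorProduct.map (AlgHom.id (ZMod 5) A) (T.π s))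
            πt := Algebra.TensorProduct.map T.πt T.πt
            w := T.w.map (fun x => (x ⊗ₜ[ZMod 5] (1 : A) : A ⊗[ZMod 5] A)) *
                T.w.map (fun x => ((1 : A) ⊗ₜ[ZMod 5] x : A ⊗[ZMod 5] A))
              - T.w.map (fun x => ((1 : A) ⊗ₜ[ZMod 5] x : A ⊗[ZMod 5] A)) *
                T.w.map (fun x => (x ⊗ₜ[ZMod 5] (1 : A) : A ⊗[ZMod 5] A))
            ρ := ρ'
            comm := ?_
            sq := ?_
            clos := tensorTD_clos T.π T.πt T.clos
            τw := ?_
            ww := ?_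
            πw := ?_
            ρσ := ?_
            ρw := ?_ }, rfl, rfl, rfl⟩
  · -- comm
    rintro (s | s) x
    · simp only [Sum.elim_inl]
      induction x using TensorProduct.induction_on with
      | zero => simp
      | tmul a b => simp [T.comm]
      | add a b ha hb => simp only [map_add, ha, hb]
    · simp only [Sum.elim_inr]
      induction x using TensorProduct.induction_on with
      | zero => simp
      | tmul a b => simp [T.comm]
      | add a b ha hb => simp only [map_add, ha, hb]
  · -- sq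
    rintro (s | s) x y
    · simp only [Sum.elim_inl]
      induction x using TensorProduct.induction_on with
      | zero => simp
      | add a b ha hb =>
        rw [map_add, add_sub_add_comm, add_mul, ha, hb, add_zero]
      | tmul a b =>
        induction y using TensorProduct.induction_on with
        | zero => simp
        | add c d hc hd =>
          rw [map_add, add_sub_add_comm, mul_add, hc, hd, add_zero]
        | tmul c d =>
          rw [Algebra.TensorProduct.map_tmul, Algebra.TensorProduct.map_tmul, AlgHom.id_apply,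
            AlgHom.id_apply, ← TensorProduct.sub_tmul, ← TensorProduct.sub_tmul,
            Algebra.TensorProduct.tmul_mul_tmul, T.sq, TensorProduct.zero_tmul]
    · simp only [Sum.elim_inr]
      induction x using TensorProduct.induction_on with
      | zero => simp
      | add a b ha hb =>
        rw [map_add, add_sub_add_comm, add_mul, ha, hb, add_zero]
      | tmul a b =>
        induction y using TensorProduct.induction_on with
        | zero => simp
        | add c d hc hd =>
          rw [map_add, add_sub_add_comm, mul_add, hc, hd, add_zero]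
        | tmul c d =>
          rw [Algebra.TensorProduct.map_tmul, Algebra.TensorProduct.map_tmul, AlgHom.id_apply,
            AlgHom.id_apply, ← TensorProduct.tmul_sub, ← TensorProduct.tmul_sub,
            Algebra.TensorProduct.tmul_mul_tmul, T.sq, TensorProduct.tmul_zero]
  · -- τw
    have hx : tau ((Algebra.TensorProduct.map T.σ T.σ : (A ⊗[ZMod 5] A) →ₐ[ZMod 5] (A ⊗[ZMod 5] A)) :
        (A ⊗[ZMod 5] A) →+* (A ⊗[ZMod 5] A))
        (T.w.map (fun x => (x ⊗ₜ[ZMod 5] (1 : A) : A ⊗[ZMod 5] A)))
        = T.w.map (fun x => (x ⊗ₜ[ZMod 5] (1 : A) : A ⊗[ZMod 5] A)) := by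
      have h := tensorTD_tau_map (T.σ : A →+* A)
        ((Algebra.TensorProduct.map T.σ T.σ : (A ⊗[ZMod 5] A) →ₐ[ZMod 5] (A ⊗[ZMod 5] A)) :
          (A ⊗[ZMod 5] A) →+* (A ⊗[ZMod 5] A))
        ((Algebra.TensorProduct.includeLeft : A →ₐ[ZMod 5] A ⊗[ZMod 5] A) : A →+* A ⊗[ZMod 5] A)
        (by intro a; simp) T.w
      rw [T.τw] at h
      exact h
    have hy : tau ((Algebra.TensorProduct.map T.σ T.σ : (A ⊗[ZMod 5] A) →ₐ[ZMod 5] (A ⊗[ZMod 5] A)) :
        (A ⊗[ZMod 5] A) →+* (A ⊗[ZMod 5] A))
        (T.w.map (fun x => ((1 : A) ⊗ₜ[ZMod 5] x : A ⊗[ZMod 5] A)))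
        = T.w.map (fun x => ((1 : A) ⊗ₜ[ZMod 5] x : A ⊗[ZMod 5] A)) := by
      have h := tensorTD_tau_map (T.σ : A →+* A)
        ((Algebra.TensorProduct.map T.σ T.σ : (A ⊗[ZMod 5] A) →ₐ[ZMod 5] (A ⊗[ZMod 5] A)) :
          (A ⊗[ZMod 5] A) →+* (A ⊗[ZMod 5] A))
        ((Algebra.TensorProduct.includeRight : A →ₐ[ZMod 5] A ⊗[ZMod 5] A) : A →+* A ⊗[ZMod 5] A)
        (by intro a; simp) T.w
      rw [T.τw] at h
      exact h
    rw [map_sub, map_mul, map_mul, hx, hy]
  · -- ww
    intro i j k l
    rw [hW, hW]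
    simp only [sub_mul, mul_sub, add_mul, mul_add, Algebra.TensorProduct.tmul_mul_tmul, T.ww,
      TensorProduct.zero_tmul, add_zero, sub_zero]
  · -- πw
    intro i j
    rw [hW]
    simp only [map_sub, map_add, Algebra.TensorProduct.map_tmul, T.πw, TensorProduct.zero_tmul,
      add_zero, sub_zero]
  · -- ρσ
    intro x
    induction x using TensorProduct.induction_on with
    | zero => simp
    | add a b ha hb => rw [map_add, map_add, ha, hb, map_add, mul_add, add_mul]
    | tmul a b =>
      rw [Algebra.TensorProduct.map_tmul, hρ', hρ', T.ρσ, T.ρσ, mul_sub, sub_mul]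
      congr 1
      · calc uM (ZMod 5) * T.ρ a * vM (ZMod 5) * (uM (ZMod 5) * T.ρ b * vM (ZMod 5))
            = uM (ZMod 5) * T.ρ a * (vM (ZMod 5) * uM (ZMod 5)) * T.ρ b * vM (ZMod 5) := by
              simp only [mul_assoc]
          _ = uM (ZMod 5) * (T.ρ a * T.ρ b) * vM (ZMod 5) := by
              rw [vu, mul_one]; simp only [mul_assoc]
      · calc uM (ZMod 5) * T.ρ b * vM (ZMod 5) * (uM (ZMod 5) * T.ρ a * vM (ZMod 5))
            = uM (ZMod 5) * T.ρ b * (vM (ZMod 5) * uM (ZMod 5)) * T.ρ a * vM (ZMod 5) := by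
              simp only [mul_assoc]
          _ = uM (ZMod 5) * (T.ρ b * T.ρ a) * vM (ZMod 5) := by
              rw [vu, mul_one]; simp only [mul_assoc]
  · -- ρw
    intro i j
    rw [hW]
    simp only [map_sub, map_add, hρ', T.ρw]
    exact tensorTD_Om i j

end Pool.Agent.Helper904.Kh
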