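import Mathlib
import Pool.Agent.Helper904.Kh.Defs2

set_option autoImplicit false

namespace Pool.Agent.Helper904.Kh

open Matrix


theorem ugw_ww {A : Type} [CommRing A] [Algebra (ZMod 5) A] (T : TD A) : T.w * T.w = 0 := by
  ext i j
  rw [Matrix.mul_apply, Fin.sum_univ_two, T.ww, T.ww]
  simp

theorem ugw_ρ {A : Type} [CommRing A] [Algebra (ZMod 5) A] (T : TD A) (x : A) :
    T.ρ (T.σ x) 0 0 = T.ρ x 0 0 + T.ρ x 1 0 ∧
    T.ρ (T.σ x) 0 1 = T.ρ x 0 1 + T.ρ x 1 1 - T.ρ x 0 0 - T.ρ x 1 0 ∧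
    T.ρ (T.σ x) 1 0 = T.ρ x 1 0 ∧
    T.ρ (T.σ x) 1 1 = T.ρ x 1 1 - T.ρ x 1 0 := by
  rw [T.ρσ]
  refine ⟨?_, ?_, ?_, ?_⟩ <;>
  · simp only [uM, vM, Matrix.mul_apply, Fin.sum_univ_two, Matrix.of_apply, Matrix.cons_val',
      Matrix.cons_val_zero, Matrix.cons_val_one, Matrix.cons_val_fin_one]
    ring

theorem UG_w {A : Type} [CommRing A] [Algebra (ZMod 5) A] (T : TD A) :
    ∃ g : UG T, ((g : (M2 A)ˣ) : M2 A) = 1 + T.w := by
  have hww := ugw_ww T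
  refine ⟨⟨⟨1 + T.w, 1 - T.w, ?_, ?_⟩, ?_, ?_⟩, rfl⟩
  · have : (1 + T.w) * (1 - T.w) = 1 - T.w * T.w := by noncomm_ring
    rw [this, hww, sub_zero]
  · have : (1 - T.w) * (1 + T.w) = 1 - T.w * T.w := by noncomm_ring
    rw [this, hww, sub_zero]
  · show tau (T.σ : A →+* A) (1 + T.w) = 1 + T.w
    rw [map_add, map_one, T.τw]
  · show (T.πt : A →+* A).mapMatrix (1 + T.w) = 1
    have h0 : (T.πt : A →+* A).mapMatrix T.w = 0 := by
      ext i j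
      exact T.πw i j
    rw [map_add, map_one, h0, add_zero]

theorem w_notin {A : Type} [CommRing A] [Algebra (ZMod 5) A] (T : TD A) :
    T.w ∉ JJ (T.σ : A →+* A) := by
  rintro ⟨n, hn⟩
  have h00 : T.w 0 0 = T.σ (n 0 0) + T.σ (n 1 0) - n 0 0 := by
    rw [hn, Matrix.sub_apply, tau_00]; rfl
  have h01 : T.w 0 1 = T.σ (n 0 1) + T.σ (n 1 1) - T.σ (n 0 0) - T.σ (n 1 0) - n 0 1 := by
    rw [hn, Matrix.sub_apply, tau_01]; rfl
  have h10 : T.w 1 0 = T.σ (n 1 0) - n 1 0 := by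
    rw [hn, Matrix.sub_apply, tau_10]; rfl
  have h11 : T.w 1 1 = T.σ (n 1 1) - T.σ (n 1 0) - n 1 1 := by
    rw [hn, Matrix.sub_apply, tau_11]; rfl
  have r00 := congrFun (congrFun (T.ρw 0 0) 0) 0
  have r01 := congrFun (congrFun (T.ρw 0 1) 1) 0
  have r10 := congrFun (congrFun (T.ρw 1 0) 0) 1
  have r11 := congrFun (congrFun (T.ρw 1 1) 1) 1
  rw [h00] at r00
  rw [h01] at r01
  rw [h10] at r10
  rw [h11] at r11
  simp only [map_add, map_sub, Matrix.add_apply, Matrix.sub_apply] at r00 r01 r10 r11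
  obtain ⟨a1, a2, a3, a4⟩ := ugw_ρ T (n 0 0)
  obtain ⟨b1, b2, b3, b4⟩ := ugw_ρ T (n 0 1)
  obtain ⟨c1, c2, c3, c4⟩ := ugw_ρ T (n 1 0)
  obtain ⟨d1, d2, d3, d4⟩ := ugw_ρ T (n 1 1)
  rw [a1, c1] at r00
  rw [b3, d3, a3, c3] at r01
  rw [c2] at r10
  rw [d4, c4] at r11
  have o00 : Om 0 0 0 0 = 3 := rfl
  have o01 : Om 0 1 1 0 = 1 := rfl
  have o10 : Om 1 0 0 1 = 1 := rfl
  have o11 : Om 1 1 1 1 = 3 := rfl
  rw [o00] at r00
  rw [o01] at r01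
  rw [o10] at r10
  rw [o11] at r11
  have h8 : (0 : ZMod 5) = 3 + 1 + 1 + 3 := by
    linear_combination r00 + r01 + r10 + r11
  revert h8
  decide

end Pool.Agent.Helper904.Kh
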