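import Mathlib
import Pool.Agent.Helper904.Kh.Defs2
import Pool.Agent.Helper904.Kh.P_tensorTD
import Pool.Agent.Helper904.Kh.P_ugw

set_option autoImplicit false

namespace Pool.Agent.Helper904.Kh

open Matrix


theorem map_uM {R S : Type} [CommRing R] [CommRing S] (f : R →+* S) :
    f.mapMatrix (uM R) = uM S := by
  ext a b
  fin_cases a <;> fin_cases b <;> simp [uM]

theorem map_vM {R S : Type} [CommRing R] [CommRing S] (f : R →+* S) :
    f.mapMatrix (vM R) = vM S := by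
  ext a b
  fin_cases a <;> fin_cases b <;> simp [vM]

theorem tau_nat {R S : Type} [CommRing R] [CommRing S] (f : R →+* S) (σ : R →+* R)
    (σ' : S →+* S) (h : ∀ x, f (σ x) = σ' (f x)) (m : M2 R) :
    tau σ' (f.mapMatrix m) = f.mapMatrix (tau σ m) := by
  rw [tau_apply, tau_apply, map_mul, map_mul, map_uM, map_vM]
  congr 2
  ext a b
  simp [h]

/-- the group homomorphism given by a homomorphism of the data -/
def mapUG {A B : Type} [CommRing A] [Algebra (ZMod 5) A] [CommRing B] [Algebra (ZMod 5) B]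
    (T : TD A) (T' : TD B) (i : A →+* B) (h1 : ∀ x, i (T.σ x) = T'.σ (i x))
    (h2 : ∀ x, i (T.πt x) = T'.πt (i x)) : UG T →* UG T' :=
  ((Units.map (i.mapMatrix : M2 A →+* M2 B).toMonoidHom).comp (UG T).subtype).codRestrict (UG T')
    (by
      rintro ⟨g, hg1, hg2⟩
      constructor
      · change tau (T'.σ : B →+* B) (i.mapMatrix (g : M2 A)) = i.mapMatrix (g : M2 A)
        rw [tau_nat i (T.σ : A →+* A) (T'.σ : B →+* B) h1, hg1]
      · change (T'.πt : B →+* B).mapMatrix (i.mapMatrix (g : M2 A)) = 1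
        have h3 : (T'.πt : B →+* B).mapMatrix (i.mapMatrix (g : M2 A))
            = i.mapMatrix ((T.πt : A →+* A).mapMatrix (g : M2 A)) := by
          ext a b
          simp [h2]
        rw [h3, hg2, map_one])

theorem mapUG_coe {A B : Type} [CommRing A] [Algebra (ZMod 5) A] [CommRing B]
    [Algebra (ZMod 5) B]
    (T : TD A) (T' : TD B) (i : A →+* B) (h1 : ∀ x, i (T.σ x) = T'.σ (i x))
    (h2 : ∀ x, i (T.πt x) = T'.πt (i x)) (g : UG T) :
    ((mapUG T T' i h1 h2 g : (M2 B)ˣ) : M2 B) = i.mapMatrix ((g : (M2 A)ˣ) : M2 A) := rfl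

theorem xMx {B : Type} [CommRing B] (x : M2 B) (h : ∀ i j k l, x i j * x k l = 0) (M : M2 B) :
    x * M * x = 0 := by
  ext i j
  simp only [Matrix.mul_apply, Fin.sum_univ_two, Matrix.zero_apply]
  linear_combination M 0 0 * h i 0 0 j + M 1 0 * h i 1 0 j + M 0 1 * h i 0 1 j
    + M 1 1 * h i 1 1 j

theorem comm_calc {B : Type} [CommRing B] (x y : M2 B) (hx : ∀ M, x * M * x = 0)
    (hy : ∀ M, y * M * y = 0) :
    (1 + (x * y - y * x)) * ((1 + y) * (1 + x)) = (1 + x) * (1 + y) := by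
  have hxx : x * x = 0 := by simpa using hx 1
  have hyy : y * y = 0 := by simpa using hy 1
  have h1 : x * y * x = 0 := hx y
  have h2 : x * y * y = 0 := by rw [mul_assoc, hyy, mul_zero]
  have h3 : y * x * x = 0 := by rw [mul_assoc, hxx, mul_zero]
  have h4 : y * x * y = 0 := hy x
  have h5 : x * y * (y * x) = 0 := by rw [← mul_assoc, h2, zero_mul]
  have h6 : y * x * (y * x) = 0 := by rw [← mul_assoc, h4, zero_mul]
  simp only [mul_add, add_mul, sub_mul, one_mul, mul_one, h1, h2, h3, h4, h5, h6]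
  abel

theorem comm_units {M : Type} [Monoid M] {G : Subgroup Mˣ} (a b : G) (p q r : M)
    (ha : ((a : Mˣ) : M) = p) (hb : ((b : Mˣ) : M) = q) (key : r * (q * p) = p * q) :
    (((a * b * a⁻¹ * b⁻¹ : G) : Mˣ) : M) = r := by
  have h1 : a * b * a⁻¹ * b⁻¹ * (b * a) = a * b := by group
  have h2 : (((a * b * a⁻¹ * b⁻¹ : G) : Mˣ) : M) * (q * p) = p * q := by
    have h3 := congrArg (fun z : G => ((z : Mˣ) : M)) h1
    simp only [Subgroup.coe_mul, Units.val_mul] at h3
    simp only [Subgroup.coe_mul, Units.val_mul]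
    rw [← ha, ← hb]
    exact h3
  have hu : IsUnit (q * p) := by
    rw [← ha, ← hb, ← Units.val_mul]
    exact Units.isUnit _
  rw [← key] at h2
  exact hu.mul_right_cancel h2

theorem exists_mapUG {A B : Type} [CommRing A] [Algebra (ZMod 5) A] [CommRing B]
    [Algebra (ZMod 5) B]
    (T : TD A) (T' : TD B) (i : A →+* B) (h1 : ∀ x, i (T.σ x) = T'.σ (i x))
    (h2 : ∀ x, i (T.πt x) = T'.πt (i x)) :
    ∃ L : UG T →* UG T', ∀ g : UG T, ((L g : (M2 B)ˣ) : M2 B)
      = i.mapMatrix ((g : (M2 A)ˣ) : M2 A) :=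
  ⟨mapUG T T' i h1 h2, fun _ => rfl⟩

open scoped commutatorElement in
theorem step_aux {A B : Type} [CommRing A] [Algebra (ZMod 5) A] [CommRing B]
    [Algebra (ZMod 5) B] (T : TD A) (T' : TD B) (iL iR : A →+* B)
    (hL1 : ∀ x, iL (T.σ x) = T'.σ (iL x)) (hL2 : ∀ x, iL (T.πt x) = T'.πt (iL x))
    (hR1 : ∀ x, iR (T.σ x) = T'.σ (iR x)) (hR2 : ∀ x, iR (T.πt x) = T'.πt (iR x))
    (hwk : T'.w = iL.mapMatrix T.w * iR.mapMatrix T.w - iR.mapMatrix T.w * iL.mapMatrix T.w)
    (k : ℕ) (g : UG T) (hg : ((g : (M2 A)ˣ) : M2 A) = 1 + T.w)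
    (hk : g ∈ derivedSeries (UG T) k) :
    ∃ g' : UG T', ((g' : (M2 B)ˣ) : M2 B) = 1 + T'.w ∧ g' ∈ derivedSeries (UG T') (k + 1) := by
  obtain ⟨L, hL⟩ := exists_mapUG T T' iL hL1 hL2
  obtain ⟨R, hR⟩ := exists_mapUG T T' iR hR1 hR2
  have hLk : L g ∈ derivedSeries (UG T') k :=
    map_derivedSeries_le_derivedSeries L k (Subgroup.mem_map_of_mem L hk)
  have hRk : R g ∈ derivedSeries (UG T') k :=
    map_derivedSeries_le_derivedSeries R k (Subgroup.mem_map_of_mem R hk)
  have hww : ∀ i j k l, iL.mapMatrix T.w i j * iL.mapMatrix T.w k l = 0 := by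
    intro i j k l
    rw [RingHom.mapMatrix_apply, Matrix.map_apply, Matrix.map_apply, ← map_mul, T.ww, map_zero]
  have hww' : ∀ i j k l, iR.mapMatrix T.w i j * iR.mapMatrix T.w k l = 0 := by
    intro i j k l
    rw [RingHom.mapMatrix_apply, Matrix.map_apply, Matrix.map_apply, ← map_mul, T.ww, map_zero]
  have key := comm_calc (iL.mapMatrix T.w) (iR.mapMatrix T.w) (xMx _ hww) (xMx _ hww')
  have cL := hL g
  rw [hg, map_add, map_one] at cL
  have cR := hR g
  rw [hg, map_add, map_one] at cR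
  rw [← hwk] at key
  refine ⟨L g * R g * (L g)⁻¹ * (R g)⁻¹, comm_units (L g) (R g) _ _ _ cL cR key, ?_⟩
  rw [derivedSeries_succ]
  exact Subgroup.commutator_mem_commutator hLk hRk

theorem stepTD {A : Type} [CommRing A] [Algebra (ZMod 5) A] [Finite A] (T : TD A) (k : ℕ)
    (g : UG T) (hg : ((g : (M2 A)ˣ) : M2 A) = 1 + T.w) (hk : g ∈ derivedSeries (UG T) k) :
    ∃ (B : Type) (_ : CommRing B) (_ : Algebra (ZMod 5) B) (_ : Finite B) (T' : TD B)
      (g' : UG T'), ((g' : (M2 B)ˣ) : M2 B) = 1 + T'.w ∧ g' ∈ derivedSeries (UG T') (k + 1) := by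
  obtain ⟨T', hσ, hπ, hw⟩ := tensorTD T
  have hfin : Finite (TensorProduct (ZMod 5) A A) := Module.finite_of_finite (ZMod 5)
  have hL1 : ∀ x, ((Algebra.TensorProduct.includeLeft : A →ₐ[ZMod 5] TensorProduct (ZMod 5) A A) :
      A →+* TensorProduct (ZMod 5) A A) (T.σ x) = T'.σ (((Algebra.TensorProduct.includeLeft :
      A →ₐ[ZMod 5] TensorProduct (ZMod 5) A A) : A →+* TensorProduct (ZMod 5) A A) x) := by
    intro x
    rw [hσ]
    simp
  have hL2 : ∀ x, ((Algebra.TensorProduct.includeLeft : A →ₐ[ZMod 5] TensorProduct (ZMod 5) A A) :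
      A →+* TensorProduct (ZMod 5) A A) (T.πt x) = T'.πt (((Algebra.TensorProduct.includeLeft :
      A →ₐ[ZMod 5] TensorProduct (ZMod 5) A A) : A →+* TensorProduct (ZMod 5) A A) x) := by
    intro x
    rw [hπ]
    simp
  have hR1 : ∀ x, ((Algebra.TensorProduct.includeRight : A →ₐ[ZMod 5] TensorProduct (ZMod 5) A A) :
      A →+* TensorProduct (ZMod 5) A A) (T.σ x) = T'.σ (((Algebra.TensorProduct.includeRight :
      A →ₐ[ZMod 5] TensorProduct (ZMod 5) A A) : A →+* TensorProduct (ZMod 5) A A) x) := by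
    intro x
    rw [hσ]
    simp
  have hR2 : ∀ x, ((Algebra.TensorProduct.includeRight : A →ₐ[ZMod 5] TensorProduct (ZMod 5) A A) :
      A →+* TensorProduct (ZMod 5) A A) (T.πt x) = T'.πt (((Algebra.TensorProduct.includeRight :
      A →ₐ[ZMod 5] TensorProduct (ZMod 5) A A) : A →+* TensorProduct (ZMod 5) A A) x) := by
    intro x
    rw [hπ]
    simp
  obtain ⟨g', h1, h2⟩ := step_aux T T' _ _ hL1 hL2 hR1 hR2 hw k g hg hk
  exact ⟨TensorProduct (ZMod 5) A A, inferInstance, inferInstance, hfin, T', g', h1, h2⟩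

end Pool.Agent.Helper904.Kh
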