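import Mathlib
import Pool.Agent.Helper904.Kh.Defs

set_option autoImplicit false

namespace Pool.Agent.Helper904.Kh

open Matrix


theorem nil_mat {R : Type} [CommRing R] (m : M2 R) (h : ∀ i j, IsNilpotent (m i j)) :
    IsNilpotent m := by
  have hmm : m * m = (m 0 0 + m 1 1) • m - (m 0 0 * m 1 1 - m 0 1 * m 1 0) • (1 : M2 R) := by
    ext i j
    rw [Matrix.sub_apply, Matrix.smul_apply, Matrix.smul_apply, Matrix.mul_apply,
      Fin.sum_univ_two, smul_eq_mul, smul_eq_mul]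
    fin_cases i <;> fin_cases j
    · show m 0 0 * m 0 0 + m 0 1 * m 1 0 = (m 0 0 + m 1 1) * m 0 0 -
        (m 0 0 * m 1 1 - m 0 1 * m 1 0) * (1 : M2 R) 0 0
      rw [Matrix.one_apply_eq]
      ring
    · show m 0 0 * m 0 1 + m 0 1 * m 1 1 = (m 0 0 + m 1 1) * m 0 1 -
        (m 0 0 * m 1 1 - m 0 1 * m 1 0) * (1 : M2 R) 0 1
      rw [Matrix.one_apply_ne (by decide)]
      ring
    · show m 1 0 * m 0 0 + m 1 1 * m 1 0 = (m 0 0 + m 1 1) * m 1 0 -
        (m 0 0 * m 1 1 - m 0 1 * m 1 0) * (1 : M2 R) 1 0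
      rw [Matrix.one_apply_ne (by decide)]
      ring
    · show m 1 0 * m 0 1 + m 1 1 * m 1 1 = (m 0 0 + m 1 1) * m 1 1 -
        (m 0 0 * m 1 1 - m 0 1 * m 1 0) * (1 : M2 R) 1 1
      rw [Matrix.one_apply_eq]
      ring
  have ht : IsNilpotent (m 0 0 + m 1 1) := (Commute.all _ _).isNilpotent_add (h 0 0) (h 1 1)
  have hd : IsNilpotent (m 0 0 * m 1 1 - m 0 1 * m 1 0) :=
    (Commute.all _ _).isNilpotent_sub ((Commute.all _ _).isNilpotent_mul_right (h 0 0))
      ((Commute.all _ _).isNilpotent_mul_right (h 0 1))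
  have h1 : IsNilpotent ((m 0 0 + m 1 1) • m) := by
    obtain ⟨n, hn⟩ := ht
    exact ⟨n, by rw [smul_pow, hn, zero_smul]⟩
  have h2 : IsNilpotent ((m 0 0 * m 1 1 - m 0 1 * m 1 0) • (1 : M2 R)) := by
    obtain ⟨n, hn⟩ := hd
    exact ⟨n, by rw [smul_pow, hn, zero_smul]⟩
  have hc : Commute ((m 0 0 + m 1 1) • m) ((m 0 0 * m 1 1 - m 0 1 * m 1 0) • (1 : M2 R)) :=
    ((Commute.one_right _).smul_right _)
  have h3 : IsNilpotent (m * m) := by
    rw [hmm]
    exact hc.isNilpotent_sub h1 h2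
  obtain ⟨n, hn⟩ := h3
  refine ⟨2 * n, ?_⟩
  rw [pow_mul, pow_two]
  exact hn

theorem nil_closure {R S : Type} [CommRing R] (π : S → R →+* R)
    (hπ : ∀ s x y, (x - π s x) * (y - π s y) = 0) (f : R →+* R)
    (hf : f ∈ Submonoid.closure (Set.range π)) (x : R) : IsNilpotent (x - f x) := by
  revert x
  induction hf using Submonoid.closure_induction with
  | mem g hg =>
    obtain ⟨s, rfl⟩ := hg
    intro x
    exact ⟨2, by rw [pow_two]; exact hπ s x x⟩
  | one =>
    intro x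
    have h1 : x - (1 : R →+* R) x = 0 := sub_self x
    rw [h1]
    exact IsNilpotent.zero
  | mul f g _ _ hf hg =>
    intro x
    have h1 : x - (f * g) x = (x - g x) + (g x - f (g x)) := by
      show x - f (g x) = (x - g x) + (g x - f (g x))
      ring
    rw [h1]
    exact (Commute.all _ _).isNilpotent_add (hg x) (hf (g x))

end Pool.Agent.Helper904.Kh

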