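import Mathlib
import Pool.Agent.Helper904.Kh.Defs
import Pool.Agent.Helper904.Kh.P_absMain
import Pool.Agent.Helper904.Kh.P_formMul
import Pool.Agent.Helper904.Kh.P_dmFacts
import Pool.Agent.Helper904.Kh.P_jjFacts
import Pool.Agent.Helper904.Kh.P_detect
import Pool.Agent.Helper904.Kh.P_formWD
import Pool.Agent.Helper904.Kh.P_existsQ
import Pool.Agent.Helper904.Kh.P_nilMat
import Pool.Agent.Helper904.Kh.P_closureFacts

set_option autoImplicit false

namespace Pool.Agent.Helper904.Kh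

open Matrix


/-- entrywise image in the fixed ring -/
def mapFix {R : Type} [CommRing R] (σ f : R →+* R) (hf : ∀ x, f (σ x) = σ (f x)) (x : Fix σ) :
    Fix σ :=
  ⟨(x : M2 R).map f, by
    rw [mem_Fix, tau_map σ f hf, (mem_Fix σ _).1 x.2]⟩

theorem mapFix_coe {R : Type} [CommRing R] (σ f : R →+* R) (hf : ∀ x, f (σ x) = σ (f x))
    (x : Fix σ) : (mapFix σ f hf x : M2 R) = (x : M2 R).map f := rfl

theorem q_eq {R Q : Type} [CommRing R] [Ring Q] (σ : R →+* R) (q : Fix σ →+* Q)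
    (hq0 : ∀ x : Fix σ, q x = 0 ↔ (x : M2 R) ∈ JJ σ) (x y : Fix σ) :
    q x = q y ↔ (x : M2 R) - (y : M2 R) ∈ JJ σ := by
  rw [← sub_eq_zero, ← map_sub, hq0]
  rfl

theorem five_M {R : Type} [CommRing R] (h : (5 : R) = 0) : (5 : M2 R) = 0 := by
  have : (5 : M2 R) = algebraMap R (M2 R) 5 := (map_ofNat _ 5).symm
  rw [this, h, map_zero]

theorem pow_five_one {Q : Type} [Ring Q] (h5 : (5 : Q) = 0) (x : Q) (hx : x ^ 5 = 0) :
    (1 + x) ^ 5 = 1 := by
  have h : (1 + x) ^ 5 = 1 + 5 * (x + 2 * x ^ 2 + 2 * x ^ 3 + x ^ 4) + x ^ 5 := by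
    noncomm_ring
  rw [h, hx, h5]
  simp

theorem ringMain {R S L : Type} [CommRing R] [Finite R] [Finite S] [Group L] (d : RD R)
    (π : S → R →+* R) (hπσ : ∀ s x, π s (d.σ x) = d.σ (π s x))
    (hπa : ∀ s, π s d.a = d.a) (hπb : ∀ s, π s d.b = d.b) (hπc : ∀ s, π s d.c = d.c)
    (hπ : ∀ s x y, (x - π s x) * (y - π s y) = 0)
    (πt : R →+* R) (hπt : πt ∈ Submonoid.closure (Set.range π))
    (j : L →* M2 R) (hjτ : ∀ l, tau d.σ (j l) = j l) (hjπ : ∀ l, (j l).map πt = 1)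
    (k : ℕ) (l : L) (hl : l ∈ derivedSeries L k) (hjl : j l - 1 ∉ JJ d.σ) : Good k := by
  obtain ⟨Q, hQr, hQf, q, hqs, hq0⟩ := exists_Q d.σ
  have hqe := q_eq d.σ q hq0
  haveI : Finite (M2 R) := inferInstanceAs (Finite (Fin 2 → Fin 2 → R))
  haveI : Finite (M2 R ⧸ JJ d.σ) := Quotient.finite _
  haveI : Finite (R ⧸ JS d.σ) := Quotient.finite _
  have h5M : (5 : M2 R) = 0 := five_M d.five
  have h5F : (5 : Fix d.σ) = 0 := Subtype.ext h5M
  have h5Q : (5 : Q) = 0 := by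
    have h : q (5 : Fix d.σ) = (5 : Q) := map_ofNat q 5
    rw [← h, h5F, map_zero]
  have h5W : ∀ w : M2 R ⧸ JJ d.σ, 5 • w = 0 := by
    intro w
    obtain ⟨m, rfl⟩ := QuotientAddGroup.mk_surjective w
    rw [← QuotientAddGroup.mk_nsmul, nsmul_eq_mul]
    have : ((5 : ℕ) : M2 R) = 0 := by
      rw [← h5M]; rfl
    rw [this, zero_mul]
    rfl
  have h5W' : ∀ w : R ⧸ JS d.σ, 5 • w = 0 := by
    intro w
    obtain ⟨m, rfl⟩ := QuotientAddGroup.mk_surjective w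
    rw [← QuotientAddGroup.mk_nsmul, nsmul_eq_mul]
    have : ((5 : ℕ) : R) = 0 := by
      rw [← d.five]; rfl
    rw [this, zero_mul]
    rfl
  -- section
  obtain ⟨sec, hsec⟩ : ∃ sec : Q → Fix d.σ, ∀ x, q (sec x) = x :=
    ⟨Function.surjInv hqs, Function.surjInv_eq hqs⟩
  have hsec' : ∀ m : Fix d.σ, ((sec (q m) : Fix d.σ) : M2 R) - (m : M2 R) ∈ JJ d.σ := by
    intro m
    rw [← hqe, hsec]
  have hfix : ∀ m : Fix d.σ, tau d.σ (m : M2 R) = m := fun m => (mem_Fix d.σ _).1 m.2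
  obtain ⟨β, hβ⟩ : ∃ β : Q → Q → M2 R ⧸ JJ d.σ, ∀ m k : Fix d.σ,
      β (q m) (q k) = QuotientAddGroup.mk (form d m k) := by
    refine ⟨fun x y => QuotientAddGroup.mk (form d (sec x) (sec y)), fun m k => ?_⟩
    rw [QuotientAddGroup.eq_iff_sub_mem]
    have h1 := form_JJ_left d _ (sec (q k) : M2 R) (hsec' m) (hfix _)
    have h2 := form_JJ_right d (m : M2 R) _ (hfix m) (hsec' k)
    rw [form_sub_left] at h1
    rw [form_sub_right] at h2
    have h3 := (JJ d.σ).add_mem h1 h2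
    rw [sub_add_sub_cancel] at h3
    exact h3
  obtain ⟨T, hT⟩ : ∃ T : Q → R ⧸ JS d.σ, ∀ m : Fix d.σ,
      T (q m) = QuotientAddGroup.mk ((m : M2 R).trace) := by
    refine ⟨fun x => QuotientAddGroup.mk ((sec x : M2 R).trace), fun m => ?_⟩
    rw [QuotientAddGroup.eq_iff_sub_mem, ← Matrix.trace_sub]
    exact JJ_trace d.σ _ (hsec' m)
  -- the unit
  obtain ⟨DF, hDF⟩ : ∃ DF : Fix d.σ, (DF : M2 R) = DM d := ⟨⟨DM d, tau_DM d⟩, rfl⟩
  have hx5 : (q DF) ^ 5 = 0 := by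
    rw [← map_pow, hq0]
    have : ((DF ^ 5 : Fix d.σ) : M2 R) = DM d ^ 5 := by
      rw [← hDF]; rfl
    rw [this]
    exact DM_pow_five d
  have hg5 : (1 + q DF) ^ 5 = 1 := pow_five_one h5Q _ hx5
  obtain ⟨φ₀, hφ₀, hφ5⟩ : ∃ φ₀ : Qˣ, (φ₀ : Q) = q (1 + DF) ∧ φ₀ ^ 5 = 1 := by
    refine ⟨Units.ofPowEqOne _ 5 hg5 (by norm_num), ?_, Units.pow_ofPowEqOne _ _⟩
    rw [Units.val_ofPowEqOne, map_add, map_one]
  have hgc : ((1 + DF : Fix d.σ) : M2 R) = 1 + DM d := by rw [← hDF]; rfl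
  -- the maps
  have hmapadd : ∀ (f : R →+* R) (m n : M2 R), (m - n).map f = m.map f - n.map f := by
    intro f m n
    exact Matrix.map_sub f (fun a b => map_sub f a b) m n
  choose πQ hπQ using fun s => exists_ind d.σ q hqs hq0 (π s) (hπσ s)
  have hπQ' : ∀ s (m : Fix d.σ), πQ s (q m) = q (mapFix d.σ (π s) (hπσ s) m) :=
    fun s m => hπQ s m _ rfl
  have hct : ∀ x, πt (d.σ x) = d.σ (πt x) := comm_closure d.σ π hπσ πt hπt
  obtain ⟨F, hF⟩ := exists_ind d.σ q hqs hq0 πt hct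
  have hF' : ∀ m : Fix d.σ, F (q m) = q (mapFix d.σ πt hct m) := fun m => hF m _ rfl
  -- the homomorphism
  let jF : L →* Fix d.σ :=
    { toFun := fun l => ⟨j l, hjτ l⟩
      map_one' := Subtype.ext (map_one j)
      map_mul' := fun a b => Subtype.ext (map_mul j a b) }
  have hjF : ∀ l, (jF l : M2 R) = j l := fun l => rfl
  refine absMain h5Q h5W h5W' β ?_ ?_ ?_ T ?_ ?_ φ₀ hφ5 ?_ πQ ?_ ?_ F ?_ ?_
    ((q.toMonoidHom.comp jF).toHomUnits) ?_ k l hl ?_
  · intro m m' k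
    obtain ⟨m, rfl⟩ := hqs m
    obtain ⟨m', rfl⟩ := hqs m'
    obtain ⟨k, rfl⟩ := hqs k
    rw [← map_add, hβ, hβ, hβ, ← QuotientAddGroup.mk_add, ← form_add_left]
    rfl
  · intro m k k'
    obtain ⟨m, rfl⟩ := hqs m
    obtain ⟨k', rfl⟩ := hqs k'
    obtain ⟨k, rfl⟩ := hqs k
    rw [← map_add, hβ, hβ, hβ, ← QuotientAddGroup.mk_add, ← form_add_right]
    rfl
  · intro m n k
    obtain ⟨m, rfl⟩ := hqs m
    obtain ⟨n, rfl⟩ := hqs n
    obtain ⟨k, rfl⟩ := hqs k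
    rw [← map_mul, ← map_mul, ← map_mul, hβ, hβ, hβ, ← QuotientAddGroup.mk_add]
    congr 1
    exact form_mul d m n k
  · intro a b
    obtain ⟨a, rfl⟩ := hqs a
    obtain ⟨b, rfl⟩ := hqs b
    rw [← map_add, hT, hT, hT, ← QuotientAddGroup.mk_add]
    congr 1
    exact Matrix.trace_add _ _
  · intro a b
    obtain ⟨a, rfl⟩ := hqs a
    obtain ⟨b, rfl⟩ := hqs b
    rw [← map_mul, ← map_mul, hT, hT]
    congr 1
    exact Matrix.trace_mul_comm _ _
  · intro k h1 h2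
    obtain ⟨k, rfl⟩ := hqs k
    rw [hφ₀, hβ, QuotientAddGroup.eq_zero_iff, hgc] at h1
    rw [hφ₀, ← map_mul, hT, QuotientAddGroup.eq_zero_iff] at h2
    have h3 : ((k * (1 + DF) : Fix d.σ) : M2 R) = (k : M2 R) * (1 + DM d) := by
      rw [← hgc]; rfl
    rw [h3] at h2
    rw [hq0]
    exact detect d k (hfix k) h1 h2
  · intro s x y
    obtain ⟨x, rfl⟩ := hqs x
    obtain ⟨y, rfl⟩ := hqs y
    rw [hπQ', hπQ', ← map_sub, ← map_sub, ← map_mul]
    have : (x - mapFix d.σ (π s) (hπσ s) x) * (y - mapFix d.σ (π s) (hπσ s) y) = 0 := by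
      apply Subtype.ext
      show ((x : M2 R) - (x : M2 R).map (π s)) * ((y : M2 R) - (y : M2 R).map (π s)) = 0
      ext i l
      rw [Matrix.mul_apply]
      simp [hπ]
    rw [this, map_zero]
  · intro s
    rw [hφ₀, hπQ']
    congr 1
    apply Subtype.ext
    rw [mapFix_coe, hgc]
    ext i l
    fin_cases i <;> fin_cases l <;> simp [DM, hπa, hπb, hπc]
  · intro y hy
    obtain ⟨y, rfl⟩ := hqs y
    rw [hF', hqe, mapFix_coe]
    apply fix_closure d.σ π hπσ πt hπt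
    intro s
    have := hy s
    rw [hπQ', hqe, mapFix_coe] at this
    exact this
  · intro x
    obtain ⟨x, rfl⟩ := hqs x
    rw [hF', ← map_sub]
    apply IsNilpotent.map
    have h1 : IsNilpotent ((x : M2 R) - (x : M2 R).map πt) := by
      apply nil_mat
      intro i l
      exact nil_closure π hπ πt hπt _
    obtain ⟨n, hn⟩ := h1
    exact ⟨n, Subtype.ext hn⟩
  · intro l
    rw [MonoidHom.coe_toHomUnits]
    show F (q (jF l)) = 1
    rw [hF', ← map_one q]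
    congr 1
    exact Subtype.ext (hjπ l)
  · intro h
    apply hjl
    have h1 : q (jF l) = q 1 := by
      have := congrArg Units.val h
      rw [MonoidHom.coe_toHomUnits] at this
      rw [map_one]
      exact this
    rw [hqe] at h1
    exact h1

end Pool.Agent.Helper904.Kh
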