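import Mathlib
import Pool.Agent.Helper904.Kh.Defs2

set_option autoImplicit false

namespace Pool.Agent.Helper904.Kh

open Matrix


theorem I5_aux_five {A : Type} [CommRing A] (h5 : (5 : A) = 0) :
    (5 : MvPolynomial (Fin 3) A) = 0 := by
  have h : (5 : MvPolynomial (Fin 3) A) = MvPolynomial.C (5 : A) := by
    rw [map_ofNat]
  rw [h, h5, map_zero]

theorem I5_aux_X {A : Type} [CommRing A] (i : Fin 3) :
    (MvPolynomial.X i : MvPolynomial (Fin 3) A) ^ 5 ∈ I5 A :=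
  Ideal.subset_span ⟨i, rfl⟩

theorem I5_aux_add {P : Type} [CommRing P] (h5 : (5 : P) = 0) (x y : P) :
    (x + y) ^ 5 = x ^ 5 + y ^ 5 := by
  linear_combination (x ^ 4 * y + 2 * x ^ 3 * y ^ 2 + 2 * x ^ 2 * y ^ 3 + x * y ^ 4) * h5

theorem I5_aux_sub {P : Type} [CommRing P] (h5 : (5 : P) = 0) (x y : P) :
    (x - y) ^ 5 = x ^ 5 - y ^ 5 := by
  linear_combination (-(x ^ 4 * y) + 2 * x ^ 3 * y ^ 2 - 2 * x ^ 2 * y ^ 3 + x * y ^ 4) * h5

theorem I5_aux_s0 {A : Type} [CommRing A] (σ : A →+* A) :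
    sig0 σ (MvPolynomial.X 0) = MvPolynomial.X 0 := by
  simp [sig0]

theorem I5_aux_s1 {A : Type} [CommRing A] (σ : A →+* A) :
    sig0 σ (MvPolynomial.X 1) = MvPolynomial.X 1 - MvPolynomial.X 0 := by
  simp [sig0]

theorem I5_aux_s2 {A : Type} [CommRing A] (σ : A →+* A) :
    sig0 σ (MvPolynomial.X 2) =
      MvPolynomial.X 2 + 2 * MvPolynomial.X 1 - MvPolynomial.X 0 := by
  simp [sig0]

theorem I5_sig0 {A : Type} [CommRing A] (h5 : (5 : A) = 0) (σ : A →+* A)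
    (r : MvPolynomial (Fin 3) A) (hr : r ∈ I5 A) : sig0 σ r ∈ I5 A := by
  have h5' := I5_aux_five h5
  have hle : I5 A ≤ (I5 A).comap (sig0 σ) := by
    refine Ideal.span_le.2 ?_
    rintro _ ⟨i, rfl⟩
    rw [SetLike.mem_coe, Ideal.mem_comap, map_pow]
    revert i
    rw [Fin.forall_fin_succ, Fin.forall_fin_two]
    refine ⟨?_, ?_, ?_⟩
    · rw [I5_aux_s0]
      exact I5_aux_X 0
    · have e : Fin.succ (0 : Fin 2) = (1 : Fin 3) := rfl
      rw [e, I5_aux_s1, I5_aux_sub h5']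
      exact (I5 A).sub_mem (I5_aux_X 1) (I5_aux_X 0)
    · have e : Fin.succ (1 : Fin 2) = (2 : Fin 3) := rfl
      rw [e, I5_aux_s2, I5_aux_sub h5', I5_aux_add h5', mul_pow]
      exact (I5 A).sub_mem ((I5 A).add_mem (I5_aux_X 2) ((I5 A).mul_mem_left _ (I5_aux_X 1)))
        (I5_aux_X 0)
  exact hle hr

theorem I5_pderiv {A : Type} [CommRing A] (h5 : (5 : A) = 0) (i : Fin 3)
    (r : MvPolynomial (Fin 3) A) (hr : r ∈ I5 A) : MvPolynomial.pderiv i r ∈ I5 A := by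
  have h5' := I5_aux_five h5
  unfold I5 at hr
  refine Submodule.span_induction (p := fun r _ => MvPolynomial.pderiv i r ∈ I5 A)
    ?_ ?_ ?_ ?_ hr
  · rintro _ ⟨j, rfl⟩
    have h : MvPolynomial.pderiv i ((MvPolynomial.X j : MvPolynomial (Fin 3) A) ^ 5) = 0 := by
      rw [Derivation.leibniz_pow, nsmul_eq_mul, Nat.cast_ofNat, h5', zero_mul]
    show MvPolynomial.pderiv i ((MvPolynomial.X j : MvPolynomial (Fin 3) A) ^ 5) ∈ I5 A
    rw [h]
    exact (I5 A).zero_mem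
  · rw [map_zero]
    exact (I5 A).zero_mem
  · intro x y _ _ hx hy
    rw [map_add]
    exact (I5 A).add_mem hx hy
  · intro s x hx hx'
    rw [smul_eq_mul, Derivation.leibniz, smul_eq_mul, smul_eq_mul]
    exact (I5 A).add_mem ((I5 A).mul_mem_left _ hx') ((I5 A).mul_mem_right _ hx)

theorem I5_map {A : Type} [CommRing A] (f : A →+* A)
    (r : MvPolynomial (Fin 3) A) (hr : r ∈ I5 A) : MvPolynomial.map f r ∈ I5 A := by
  have hle : I5 A ≤ (I5 A).comap (MvPolynomial.map f) := by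
    refine Ideal.span_le.2 ?_
    rintro _ ⟨i, rfl⟩
    show MvPolynomial.map f (MvPolynomial.X i ^ 5) ∈ I5 A
    rw [map_pow, MvPolynomial.map_X]
    exact I5_aux_X i
  exact hle hr

theorem I5_const {A : Type} [CommRing A]
    (r : MvPolynomial (Fin 3) A) (hr : r ∈ I5 A) : MvPolynomial.constantCoeff r = 0 := by
  have hle : I5 A ≤ RingHom.ker (MvPolynomial.constantCoeff (R := A) (σ := Fin 3)) := by
    refine Ideal.span_le.2 ?_
    rintro _ ⟨i, rfl⟩
    show MvPolynomial.constantCoeff (MvPolynomial.X i ^ 5 : MvPolynomial (Fin 3) A) = 0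
    rw [map_pow, MvPolynomial.constantCoeff_X]
    simp
  exact hle hr

end Pool.Agent.Helper904.Kh
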