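import Mathlib
import Pool.Agent.Helper904.Kh.Defs2

set_option autoImplicit false

namespace Pool.Agent.Helper904.Kh

open Matrix


theorem I5_finite {A : Type} [CommRing A] [Finite A] : Finite (MvPolynomial (Fin 3) A ⧸ I5 A) := by
  have hadj : Algebra.adjoin A (Set.range fun i : Fin 3 =>
      (Ideal.Quotient.mkₐ A (I5 A)) (MvPolynomial.X i)) = ⊤ := by
    have h1 := MvPolynomial.adjoin_range_X (R := A) (σ := Fin 3)
    have h2 := congrArg (Subalgebra.map (Ideal.Quotient.mkₐ A (I5 A))) h1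
    rw [AlgHom.map_adjoin, Algebra.map_top, ← Set.range_comp] at h2
    rw [AlgHom.range_eq_top (Ideal.Quotient.mkₐ A (I5 A)) |>.2
      (Ideal.Quotient.mkₐ_surjective A (I5 A))] at h2
    exact h2
  have hfg := fg_adjoin_of_finite (R := A) (s := Set.range fun i : Fin 3 =>
      (Ideal.Quotient.mkₐ A (I5 A)) (MvPolynomial.X i)) (Set.finite_range _) (by
    rintro _ ⟨i, rfl⟩
    refine IsIntegral.of_pow (n := 5) (by norm_num) ?_
    have h0 : (Ideal.Quotient.mkₐ A (I5 A)) (MvPolynomial.X i) ^ 5 = 0 := by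
      rw [← map_pow, Ideal.Quotient.mkₐ_eq_mk]
      exact Ideal.Quotient.eq_zero_iff_mem.2 (Ideal.subset_span ⟨i, rfl⟩)
    rw [h0]
    exact isIntegral_zero)
  rw [hadj, Algebra.top_toSubmodule] at hfg
  haveI : Module.Finite A (MvPolynomial (Fin 3) A ⧸ I5 A) := ⟨hfg⟩
  exact Module.finite_of_finite A

end Pool.Agent.Helper904.Kh
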