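import Mathlib
import Pool.Agent.Helper904.Kh.Defs2

set_option autoImplicit false

namespace Pool.Agent.Helper904.Kh

open Matrix


theorem sig0_C {A : Type} [CommRing A] (σ : A →+* A) (x : A) :
    sig0 σ (MvPolynomial.C x) = MvPolynomial.C (σ x) := by
  simp [sig0]

theorem sig0_X0 {A : Type} [CommRing A] (σ : A →+* A) :
    sig0 σ (MvPolynomial.X 0) = MvPolynomial.X 0 := by
  simp [sig0]

theorem sig0_X1 {A : Type} [CommRing A] (σ : A →+* A) :
    sig0 σ (MvPolynomial.X 1) = MvPolynomial.X 1 - MvPolynomial.X 0 := by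
  simp [sig0]

theorem sig0_X2 {A : Type} [CommRing A] (σ : A →+* A) :
    sig0 σ (MvPolynomial.X 2) =
      MvPolynomial.X 2 + 2 * MvPolynomial.X 1 - MvPolynomial.X 0 := by
  simp [sig0]

theorem sig0_map {A : Type} [CommRing A] (σ f : A →+* A) (hf : ∀ x, f (σ x) = σ (f x))
    (r : MvPolynomial (Fin 3) A) :
    MvPolynomial.map f (sig0 σ r) = sig0 σ (MvPolynomial.map f r) := by
  induction r using MvPolynomial.induction_on with
  | C a => rw [sig0_C, MvPolynomial.map_C, MvPolynomial.map_C, sig0_C, hf]
  | add p q hp hq => simp only [map_add, hp, hq]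
  | mul_X p i hp =>
    simp only [map_mul, hp, MvPolynomial.map_X]
    congr 1
    fin_cases i
    · show MvPolynomial.map f (sig0 σ (MvPolynomial.X 0)) = sig0 σ (MvPolynomial.X 0)
      simp only [sig0_X0, MvPolynomial.map_X]
    · show MvPolynomial.map f (sig0 σ (MvPolynomial.X 1)) = sig0 σ (MvPolynomial.X 1)
      simp only [sig0_X1, MvPolynomial.map_X, map_sub]
    · show MvPolynomial.map f (sig0 σ (MvPolynomial.X 2)) = sig0 σ (MvPolynomial.X 2)
      simp only [sig0_X2, MvPolynomial.map_X, map_sub, map_add, map_mul, map_ofNat]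

theorem sig0_const {A : Type} [CommRing A] (σ : A →+* A) (r : MvPolynomial (Fin 3) A) :
    MvPolynomial.constantCoeff (sig0 σ r) = σ (MvPolynomial.constantCoeff r) := by
  induction r using MvPolynomial.induction_on with
  | C a => rw [sig0_C, MvPolynomial.constantCoeff_C, MvPolynomial.constantCoeff_C]
  | add p q hp hq => simp only [map_add, hp, hq]
  | mul_X p i hp =>
    have h : MvPolynomial.constantCoeff (sig0 σ (MvPolynomial.X i)) = 0 := by
      fin_cases i
      · show MvPolynomial.constantCoeff (sig0 σ (MvPolynomial.X 0)) = 0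
        simp only [sig0_X0, MvPolynomial.constantCoeff_X]
      · show MvPolynomial.constantCoeff (sig0 σ (MvPolynomial.X 1)) = 0
        simp only [sig0_X1, MvPolynomial.constantCoeff_X, map_sub, sub_self]
      · show MvPolynomial.constantCoeff (sig0 σ (MvPolynomial.X 2)) = 0
        simp only [sig0_X2, MvPolynomial.constantCoeff_X, map_sub, map_add, map_mul, mul_zero,
          add_zero, sub_self]
    rw [map_mul, map_mul, h, map_mul, MvPolynomial.constantCoeff_X, mul_zero, mul_zero, map_zero]

theorem map_sq {A : Type} [CommRing A] (f : A →+* A)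
    (hf : ∀ x y, (x - f x) * (y - f y) = 0) (x y : MvPolynomial (Fin 3) A) :
    (x - MvPolynomial.map f x) * (y - MvPolynomial.map f y) = 0 := by
  classical
  ext m
  rw [MvPolynomial.coeff_mul, MvPolynomial.coeff_zero]
  refine Finset.sum_eq_zero fun p _ => ?_
  rw [MvPolynomial.coeff_sub, MvPolynomial.coeff_sub, MvPolynomial.coeff_map,
    MvPolynomial.coeff_map]
  exact hf _ _

end Pool.Agent.Helper904.Kh
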