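import Mathlib
import Pool.Agent.Helper904.Kh.Defs2
import Pool.Agent.Helper904.Kh.P_chain0
import Pool.Agent.Helper904.Kh.P_i5facts
import Pool.Agent.Helper904.Kh.P_i5finite
import Pool.Agent.Helper904.Kh.P_sig0facts

set_option autoImplicit false

namespace Pool.Agent.Helper904.Kh

open Matrix



section trunc

variable {A : Type} [CommRing A]

/-- the truncated polynomial ring -/
abbrev TR (A : Type) [CommRing A] : Type := MvPolynomial (Fin 3) A ⧸ I5 A

/-- additive maps descend -/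
noncomputable def tA (F : MvPolynomial (Fin 3) A →+ MvPolynomial (Fin 3) A)
    (hF : ∀ r ∈ I5 A, F r ∈ I5 A) : TR A →+ TR A :=
  QuotientAddGroup.map (I5 A).toAddSubgroup (I5 A).toAddSubgroup F hF

theorem tA_mk (F : MvPolynomial (Fin 3) A →+ MvPolynomial (Fin 3) A)
    (hF : ∀ r ∈ I5 A, F r ∈ I5 A) (x : MvPolynomial (Fin 3) A) :
    tA F hF (Ideal.Quotient.mk (I5 A) x) = Ideal.Quotient.mk (I5 A) (F x) := rfl

/-- ring maps descend -/
noncomputable def tR (F : MvPolynomial (Fin 3) A →+* MvPolynomial (Fin 3) A)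
    (hF : ∀ r ∈ I5 A, F r ∈ I5 A) : TR A →+* TR A :=
  Ideal.quotientMap (I5 A) F hF

theorem tR_mk (F : MvPolynomial (Fin 3) A →+* MvPolynomial (Fin 3) A)
    (hF : ∀ r ∈ I5 A, F r ∈ I5 A) (x : MvPolynomial (Fin 3) A) :
    tR F hF (Ideal.Quotient.mk (I5 A) x) = Ideal.Quotient.mk (I5 A) (F x) := rfl

/-- the derivation as an additive map -/
noncomputable def pd (A : Type) [CommRing A] (i : Fin 3) :
    MvPolynomial (Fin 3) A →+ MvPolynomial (Fin 3) A where
  toFun x := MvPolynomial.pderiv i x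
  map_zero' := map_zero _
  map_add' := map_add _

theorem pd_apply (i : Fin 3) (x : MvPolynomial (Fin 3) A) :
    pd A i x = MvPolynomial.pderiv i x := rfl

/-- the structure -/
noncomputable def tRD (h5 : (5 : A) = 0) (σ : A →+* A) : RD (TR A) where
  σ := tR (sig0 σ) (fun r hr => I5_sig0 h5 σ r hr)
  da := tA (pd A 0) (fun r hr => I5_pderiv h5 0 r hr)
  db := tA (pd A 1) (fun r hr => I5_pderiv h5 1 r hr)
  dc := tA (pd A 2) (fun r hr => I5_pderiv h5 2 r hr)
  da_mul x y := by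
    obtain ⟨x, rfl⟩ := Ideal.Quotient.mk_surjective x
    obtain ⟨y, rfl⟩ := Ideal.Quotient.mk_surjective y
    rw [← map_mul, tA_mk, tA_mk, tA_mk, ← map_mul, ← map_mul, ← map_add, pd_apply, pd_apply,
      pd_apply, MvPolynomial.pderiv_mul]
  db_mul x y := by
    obtain ⟨x, rfl⟩ := Ideal.Quotient.mk_surjective x
    obtain ⟨y, rfl⟩ := Ideal.Quotient.mk_surjective y
    rw [← map_mul, tA_mk, tA_mk, tA_mk, ← map_mul, ← map_mul, ← map_add, pd_apply, pd_apply,
      pd_apply, MvPolynomial.pderiv_mul]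
  dc_mul x y := by
    obtain ⟨x, rfl⟩ := Ideal.Quotient.mk_surjective x
    obtain ⟨y, rfl⟩ := Ideal.Quotient.mk_surjective y
    rw [← map_mul, tA_mk, tA_mk, tA_mk, ← map_mul, ← map_mul, ← map_add, pd_apply, pd_apply,
      pd_apply, MvPolynomial.pderiv_mul]
  a := Ideal.Quotient.mk (I5 A) (MvPolynomial.X 0)
  b := Ideal.Quotient.mk (I5 A) (MvPolynomial.X 1)
  c := Ideal.Quotient.mk (I5 A) (MvPolynomial.X 2)
  σa := by rw [tR_mk, sig0_X0]
  σb := by rw [tR_mk, sig0_X1, map_sub]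
  σc := by
    rw [tR_mk, sig0_X2, map_sub, map_add, map_mul]
    rfl
  da_a := by
    rw [tA_mk, pd_apply, MvPolynomial.pderiv_X_self, map_one]
  da_b := by
    rw [tA_mk, pd_apply, MvPolynomial.pderiv_X_of_ne (by decide), map_zero]
  da_c := by
    rw [tA_mk, pd_apply, MvPolynomial.pderiv_X_of_ne (by decide), map_zero]
  db_a := by
    rw [tA_mk, pd_apply, MvPolynomial.pderiv_X_of_ne (by decide), map_zero]
  db_b := by
    rw [tA_mk, pd_apply, MvPolynomial.pderiv_X_self, map_one]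
  db_c := by
    rw [tA_mk, pd_apply, MvPolynomial.pderiv_X_of_ne (by decide), map_zero]
  dc_a := by
    rw [tA_mk, pd_apply, MvPolynomial.pderiv_X_of_ne (by decide), map_zero]
  dc_b := by
    rw [tA_mk, pd_apply, MvPolynomial.pderiv_X_of_ne (by decide), map_zero]
  dc_c := by
    rw [tA_mk, pd_apply, MvPolynomial.pderiv_X_self, map_one]
  da_σ r := by
    obtain ⟨r, rfl⟩ := Ideal.Quotient.mk_surjective r
    rw [tR_mk, tA_mk, tA_mk, tA_mk, tA_mk, tR_mk, tR_mk, tR_mk, pd_apply, pd_apply, pd_apply,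
      pd_apply, chain0_a, map_sub, map_sub]
  db_σ r := by
    obtain ⟨r, rfl⟩ := Ideal.Quotient.mk_surjective r
    rw [tR_mk, tA_mk, tA_mk, tA_mk, tR_mk, tR_mk, pd_apply, pd_apply, pd_apply,
      chain0_b, map_add, map_mul]
    rfl
  dc_σ r := by
    obtain ⟨r, rfl⟩ := Ideal.Quotient.mk_surjective r
    rw [tR_mk, tA_mk, tA_mk, tR_mk, pd_apply, pd_apply, chain0_c]
  five := by
    have h : (5 : TR A) = ((Ideal.Quotient.mk (I5 A)).comp MvPolynomial.C) (5 : A) :=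
      (map_ofNat _ 5).symm
    rw [h, h5, map_zero]

end trunc

theorem exists_trunc {A : Type} [CommRing A] [Finite A] (h5 : (5 : A) = 0) (σA : A →+* A) :
    ∃ (R : Type) (_ : CommRing R) (_ : Finite R) (d : RD R) (ι : A →+* R) (ε : R →+* A)
      (Ψ : (A →+* A) → (R →+* R)),
      (∀ f g, Ψ (f.comp g) = (Ψ f).comp (Ψ g)) ∧ Ψ (RingHom.id A) = RingHom.id R ∧
      (∀ x, ε (ι x) = x) ∧ (∀ x, ε (d.σ x) = σA (ε x)) ∧ (∀ x, d.σ (ι x) = ι (σA x)) ∧
      (∀ f x, Ψ f (ι x) = ι (f x)) ∧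
      (∀ f : A →+* A, (∀ x, f (σA x) = σA (f x)) → ∀ x, Ψ f (d.σ x) = d.σ (Ψ f x)) ∧
      (∀ f, Ψ f d.a = d.a) ∧ (∀ f, Ψ f d.b = d.b) ∧ (∀ f, Ψ f d.c = d.c) ∧
      (∀ f : A →+* A, (∀ x y, (x - f x) * (y - f y) = 0) →
        ∀ x y, (x - Ψ f x) * (y - Ψ f y) = 0) := by
  refine ⟨TR A, inferInstance, I5_finite, tRD h5 σA,
    (Ideal.Quotient.mk (I5 A)).comp MvPolynomial.C,
    Ideal.Quotient.lift (I5 A) MvPolynomial.constantCoeff (fun r hr => I5_const r hr),
    fun f => tR (MvPolynomial.map f) (fun r hr => I5_map f r hr),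
    ?_, ?_, ?_, ?_, ?_, ?_, ?_, ?_, ?_, ?_, ?_⟩
  · intro f g
    ext x
    · simp [tR_mk]
    · simp [tR_mk]
  · ext x
    · simp [tR_mk]
    · simp [tR_mk]
  · intro x
    simp
  · intro x
    obtain ⟨x, rfl⟩ := Ideal.Quotient.mk_surjective x
    show Ideal.Quotient.lift (I5 A) MvPolynomial.constantCoeff _
      (Ideal.Quotient.mk (I5 A) (sig0 σA x)) = _
    rw [Ideal.Quotient.lift_mk, Ideal.Quotient.lift_mk, sig0_const]
  · intro x
    show Ideal.Quotient.mk (I5 A) (sig0 σA (MvPolynomial.C x)) = _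
    rw [sig0_C]
    rfl
  · intro f x
    show Ideal.Quotient.mk (I5 A) (MvPolynomial.map f (MvPolynomial.C x)) = _
    rw [MvPolynomial.map_C]
    rfl
  · intro f hf x
    obtain ⟨x, rfl⟩ := Ideal.Quotient.mk_surjective x
    show Ideal.Quotient.mk (I5 A) (MvPolynomial.map f (sig0 σA x)) =
      Ideal.Quotient.mk (I5 A) (sig0 σA (MvPolynomial.map f x))
    rw [sig0_map σA f hf]
  · intro f
    show Ideal.Quotient.mk (I5 A) (MvPolynomial.map f (MvPolynomial.X 0)) =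
      Ideal.Quotient.mk (I5 A) (MvPolynomial.X 0)
    rw [MvPolynomial.map_X]
  · intro f
    show Ideal.Quotient.mk (I5 A) (MvPolynomial.map f (MvPolynomial.X 1)) =
      Ideal.Quotient.mk (I5 A) (MvPolynomial.X 1)
    rw [MvPolynomial.map_X]
  · intro f
    show Ideal.Quotient.mk (I5 A) (MvPolynomial.map f (MvPolynomial.X 2)) =
      Ideal.Quotient.mk (I5 A) (MvPolynomial.X 2)
    rw [MvPolynomial.map_X]
  · intro f hf x y
    obtain ⟨x, rfl⟩ := Ideal.Quotient.mk_surjective x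
    obtain ⟨y, rfl⟩ := Ideal.Quotient.mk_surjective y
    rw [tR_mk, tR_mk, ← map_sub, ← map_sub, ← map_mul, map_sq f hf, map_zero]
end Pool.Agent.Helper904.Kh
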