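import Mathlib
import Pool.Agent.Helper904.Kh.Defs2
import Pool.Agent.Helper904.Kh.P_ringMain
import Pool.Agent.Helper904.Kh.P_trunc

set_option autoImplicit false

namespace Pool.Agent.Helper904.Kh

open Matrix


theorem truncMain_map {A R : Type} [CommRing A] [CommRing R] (σ : A →+* A) (τ : R →+* R)
    (ι : A →+* R) (h : ∀ x, τ (ι x) = ι (σ x)) (m : M2 A) :
    tau τ (m.map ι) = (tau σ m).map ι := by
  ext i j
  fin_cases i <;> fin_cases j
  · change tau τ (m.map ι) 0 0 = ι (tau σ m 0 0)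
    rw [tau_00, tau_00, Matrix.map_apply, Matrix.map_apply, h, h, map_add]
  · change tau τ (m.map ι) 0 1 = ι (tau σ m 0 1)
    rw [tau_01, tau_01, Matrix.map_apply, Matrix.map_apply, Matrix.map_apply, Matrix.map_apply,
      h, h, h, h, map_sub, map_sub, map_add]
  · change tau τ (m.map ι) 1 0 = ι (tau σ m 1 0)
    rw [tau_10, tau_10, Matrix.map_apply, h]
  · change tau τ (m.map ι) 1 1 = ι (tau σ m 1 1)
    rw [tau_11, tau_11, Matrix.map_apply, Matrix.map_apply, h, h, map_sub]

theorem truncMain {A S L : Type} [CommRing A] [Finite A] [Finite S] [Group L]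
    (h5 : (5 : A) = 0) (σ : A →+* A)
    (π : S → A →+* A) (hπσ : ∀ s x, π s (σ x) = σ (π s x))
    (hπ : ∀ s x y, (x - π s x) * (y - π s y) = 0)
    (πt : A →+* A) (hπt : πt ∈ Submonoid.closure (Set.range π))
    (j : L →* M2 A) (hjτ : ∀ l, tau σ (j l) = j l) (hjπ : ∀ l, (j l).map πt = 1)
    (k : ℕ) (l : L) (hl : l ∈ derivedSeries L k) (hjl : j l - 1 ∉ JJ σ) : Good k := by
  obtain ⟨R, iR, fR, d, ι, ε, Ψ, hΨc, hΨi, hει, hεσ, hσι, hΨι, hΨσ, hΨa, hΨb, hΨc', hΨq⟩ :=
    exists_trunc h5 σ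
  have hcl : Ψ πt ∈ Submonoid.closure (Set.range fun s => Ψ (π s)) := by
    clear hjπ
    induction hπt using Submonoid.closure_induction with
    | mem x hx =>
      obtain ⟨s, rfl⟩ := hx
      exact Submonoid.subset_closure ⟨s, rfl⟩
    | one =>
      have : Ψ 1 = 1 := hΨi
      rw [this]
      exact Submonoid.one_mem _
    | mul x y _ _ hx hy =>
      have : Ψ (x * y) = Ψ x * Ψ y := hΨc x y
      rw [this]
      exact Submonoid.mul_mem _ hx hy
  refine ringMain d (fun s => Ψ (π s)) (fun s x => hΨσ (π s) (hπσ s) x) (fun s => hΨa _)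
    (fun s => hΨb _) (fun s => hΨc' _) (fun s x y => hΨq (π s) (hπ s) x y) (Ψ πt) hcl
    (((ι.mapMatrix : M2 A →+* M2 R) : M2 A →* M2 R).comp j) ?_ ?_ k l hl ?_
  · intro l
    change tau d.σ ((j l).map ι) = (j l).map ι
    rw [truncMain_map σ d.σ ι hσι, hjτ]
  · intro l
    change ((j l).map ι).map (Ψ πt) = 1
    have h1 : ((j l).map ι).map (Ψ πt) = ((j l).map πt).map ι := by
      ext a b
      rw [Matrix.map_apply, Matrix.map_apply, Matrix.map_apply, Matrix.map_apply, hΨι]
    rw [h1, hjπ]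
    exact Matrix.map_one ι (map_zero ι) (map_one ι)
  · rintro ⟨n, hn⟩
    have hn' : (j l).map ι - 1 = tau d.σ n - n := hn
    apply hjl
    refine ⟨n.map ε, ?_⟩
    rw [truncMain_map d.σ σ ε (fun x => (hεσ x).symm)]
    ext a b
    have h2 := congrArg (fun M : M2 R => ε (M a b)) hn'
    simp only [Matrix.sub_apply, Matrix.map_apply, map_sub, hει] at h2
    rw [Matrix.sub_apply, Matrix.sub_apply, Matrix.map_apply, Matrix.map_apply, ← h2]
    congr 1
    rw [Matrix.one_apply, Matrix.one_apply]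
    split_ifs
    · rw [map_one]
    · rw [map_zero]

end Pool.Agent.Helper904.Kh
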