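import Mathlib
import Pool.Agent.Helper904.Kh.Defs2
import Pool.Agent.Helper904.Kh.P_truncMain
import Pool.Agent.Helper904.Kh.P_ugw
import Pool.Agent.Helper904.Kh.P_baseTD
import Pool.Agent.Helper904.Kh.P_stepTD

set_option autoImplicit false

namespace Pool.Agent.Helper904.Kh

open Matrix


theorem chain_k (k : ℕ) : ∃ (A : Type) (_ : CommRing A) (_ : Algebra (ZMod 5) A) (_ : Finite A)
    (T : TD A) (g : UG T), ((g : (M2 A)ˣ) : M2 A) = 1 + T.w ∧ g ∈ derivedSeries (UG T) k := by
  induction k with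
  | zero =>
    obtain ⟨A, i1, i2, i3, ⟨T⟩⟩ := baseTD
    obtain ⟨g, hg⟩ := UG_w T
    exact ⟨A, i1, i2, i3, T, g, hg, by rw [derivedSeries_zero]; exact Subgroup.mem_top g⟩
  | succ k ih =>
    obtain ⟨A, i1, i2, i3, T, g, hg, hk⟩ := ih
    exact stepTD T k g hg hk

theorem good_all (k : ℕ) : Good k := by
  obtain ⟨A, i1, i2, i3, T, g, hg, hk⟩ := chain_k k
  haveI := T.finS
  have h5 : (5 : A) = 0 := by
    have h1 : (algebraMap (ZMod 5) A) (5 : ZMod 5) = (5 : A) := map_ofNat _ 5
    have h2 : (5 : ZMod 5) = 0 := by decide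
    rw [← h1, h2, map_zero]
  have hclos : ((T.πt : A →ₐ[ZMod 5] A) : A →+* A) ∈
      Submonoid.closure (Set.range (fun s : T.S => ((T.π s : A →ₐ[ZMod 5] A) : A →+* A))) := by
    have h := T.clos
    generalize T.πt = x at h ⊢
    induction h using Submonoid.closure_induction with
    | mem x hx =>
      obtain ⟨s, rfl⟩ := hx
      exact Submonoid.subset_closure ⟨s, rfl⟩
    | one => exact Submonoid.one_mem _
    | mul x y _ _ hx hy => exact Submonoid.mul_mem _ hx hy
  refine truncMain (A := A) (S := T.S) (L := UG T) h5 (T.σ : A →+* A)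
    (fun s => (T.π s : A →+* A)) (fun s x => T.comm s x) (fun s x y => T.sq s x y)
    (T.πt : A →+* A) hclos ((Units.coeHom (M2 A)).comp (UG T).subtype)
    (fun l => l.2.1) (fun l => l.2.2) k g hk ?_
  have h1 : ((Units.coeHom (M2 A)).comp (UG T).subtype) g - 1 = T.w := by
    change ((g : (M2 A)ˣ) : M2 A) - 1 = T.w
    rw [hg, add_sub_cancel_left]
  rw [h1]
  exact w_notin T

end Pool.Agent.Helper904.Kh
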